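import Pool.Agent.N65.TL.Lau
set_option autoImplicit false

/-!
Products of classes in Milnor K-theory with symbols, and the classes which specialize to zero.
-/

namespace Pool.Agent.L7h9.SU

open scoped WithZero

open Pool.Agent.TH826.MK

open Pool.Agent.N65.TL

section ext

variable {A : Type*} [CommRing A] {n : ℕ}

theorem KQ_ext {V : Type*} [AddCommGroup V] [Module ℚ V] {f g : KQ A n →ₗ[ℚ] V}
    (h : ∀ a, f (symb a) = g (symb a)) : f = g := by
  refine Submodule.linearMap_qext _ (Finsupp.lhom_ext' fun a => LinearMap.ext_ring ?_)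
  exact h a

theorem mem_span_symb (β : KQ A n) : β ∈ Submodule.span ℚ (Set.range (symb : (Fin n → Aˣ) → KQ A n)) := by
  obtain ⟨x, rfl⟩ := Submodule.mkQ_surjective _ β
  induction x using Finsupp.induction_linear with
  | zero => rw [map_zero]; exact Submodule.zero_mem _
  | add x y hx hy => rw [map_add]; exact Submodule.add_mem _ hx hy
  | single a c =>
    have h : (Finsupp.single a c : (Fin n → Aˣ) →₀ ℚ) = c • Finsupp.single a 1 := by
      rw [Finsupp.smul_single, smul_eq_mul, mul_one]
    rw [h, map_smul]
    exact Submodule.smul_mem _ _ (Submodule.subset_span ⟨a, rfl⟩)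

end ext

section cat

variable {A B C : Type*} [CommRing A] [CommRing B] [CommRing C] {n p : ℕ}

theorem append_update {α : Type*} (u : Fin n → α) (z : Fin p → α) (i : Fin n) (x : α) :
    Fin.append (Function.update u i x) z =
      Function.update (Fin.append u z) (Fin.castAdd p i) x := by
  funext l
  refine Fin.addCases (fun j => ?_) (fun j => ?_) l
  · rw [Fin.append_left]
    by_cases hj : j = i
    · subst hj
      rw [Function.update_self, Function.update_self]
    · rw [Function.update_of_ne hj, Function.update_of_ne (fun h => hj (Fin.castAdd_injective _ _ h)),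
        Fin.append_left]
  · rw [Fin.append_right, Function.update_of_ne, Fin.append_right]
    intro h
    have h1 := congrArg Fin.val h
    rw [Fin.val_natAdd, Fin.val_castAdd] at h1
    have := i.isLt
    omega

theorem map_update (φ : A →+* B) (u : Fin n → Aˣ) (i : Fin n) (x : Aˣ) :
    (fun j => Units.map (φ : A →* B) (Function.update u i x j)) =
      Function.update (fun j => Units.map (φ : A →* B) (u j)) i (Units.map (φ : A →* B) x) := by
  funext j
  by_cases hj : j = i
  · subst hj; simp
  · simp [Function.update_of_ne hj]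

/-- The product of the image of a class `β ∈ K_n(A) ⊗ ℚ` in `K_n(B) ⊗ ℚ` with the symbol
`{z_1, ..., z_p}` of units of `B`: `{u_1, ..., u_n} ↦ {φ u_1, ..., φ u_n, z_1, ..., z_p}`. -/
noncomputable def cat (φ : A →+* B) (z : Fin p → Bˣ) : KQ A n →ₗ[ℚ] KQ B (n + p) :=
  KQ.lift (fun u => symb (Fin.append (fun i => Units.map (φ : A →* B) (u i)) z)) (by
    intro u i x y
    rw [map_update, map_update, map_update, append_update, append_update, append_update, map_mul,
      symb_update_mul]) (by
    rintro u ⟨i, j, hij, h⟩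
    refine symb_eq_zero _ ⟨Fin.castAdd p i, Fin.castAdd p j, ?_, ?_⟩
    · rw [Fin.lt_def, Fin.val_castAdd, Fin.val_castAdd]
      exact hij
    · rw [Fin.append_left, Fin.append_left]
      show φ (u i : A) + φ (u j : A) = 1
      rw [← map_add, h, map_one])

theorem cat_symb (φ : A →+* B) (z : Fin p → Bˣ) (u : Fin n → Aˣ) :
    cat φ z (symb u) = symb (Fin.append (fun i => Units.map (φ : A →* B) (u i)) z) := by
  unfold cat
  rw [KQ.lift_symb]

theorem map_cat (φ : A →+* B) (z : Fin p → Bˣ) (ψ : B →+* C) (β : KQ A n) :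
    KQ.map (n + p) ψ (cat φ z β) =
      cat (ψ.comp φ) (fun i => Units.map (ψ : B →* C) (z i)) β := by
  have h : (KQ.map (n + p) ψ).comp (cat φ z) =
      cat (ψ.comp φ) (fun i => Units.map (ψ : B →* C) (z i)) (n := n) := by
    refine KQ_ext fun u => ?_
    rw [LinearMap.comp_apply, cat_symb, cat_symb, KQ.map_symb]
    congr 1
    funext l
    refine Fin.addCases (fun j => ?_) (fun j => ?_) l
    · rw [Fin.append_left, Fin.append_left]
      rfl
    · rw [Fin.append_right, Fin.append_right]
  exact LinearMap.congr_fun h β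

theorem cat_map (φ : A →+* B) (ψ : B →+* C) (z : Fin p → Cˣ) (β : KQ A n) :
    cat (RingHom.id C) z (KQ.map n (ψ.comp φ) β) = cat (ψ.comp φ) z β := by
  have h : (cat (RingHom.id C) z).comp (KQ.map n (ψ.comp φ)) = cat (ψ.comp φ) z := by
    refine KQ_ext fun u => ?_
    rw [LinearMap.comp_apply, KQ.map_symb, cat_symb, cat_symb]
    rfl
  exact LinearMap.congr_fun h β

end cat

section val

variable {L : Type*} [Field L] {n p : ℕ}

/-- The subspace of `K_n(L) ⊗ ℚ` generated by the symbols one of whose entries is a one-unit, that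
is congruent to `1` modulo the maximal ideal of the valuation ring of `v`.  For a discrete valuation
`v` these are the classes whose tame symbol and specialization at `v` are zero. -/
noncomputable def oneUnits (v : Valuation L ℤᵐ⁰) (n : ℕ) : Submodule ℚ (KQ L n) :=
  Submodule.span ℚ {z | ∃ (a : Fin n → Lˣ) (k : Fin n), v ((a k : L) - 1) < 1 ∧ z = symb a}

theorem cat_mem_of_one (v : Valuation L ℤᵐ⁰) (z : Fin p → Lˣ) {β : KQ L n}
    (hβ : β ∈ oneUnits v n) : cat (RingHom.id L) z β ∈ unitPart v (n + p) := by
  have h : oneUnits v n ≤ (unitPart v (n + p)).comap (cat (RingHom.id L) z) := by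
    unfold oneUnits
    rw [Submodule.span_le]
    rintro x ⟨a, k, hk, rfl⟩
    show cat (RingHom.id L) z (symb a) ∈ unitPart v (n + p)
    rw [cat_symb]
    refine mem_unitPart_of_oneUnit' v (Fin.castAdd p k) _ ?_
    rw [Fin.append_left]
    exact hk
  exact h hβ

theorem cat_mem_of_unit (v : Valuation L ℤᵐ⁰) {z : Fin p → Lˣ} (hz : ∀ i, v (z i : L) = 1)
    {β : KQ L n} (hβ : β ∈ unitPart v n) : cat (RingHom.id L) z β ∈ unitPart v (n + p) := by
  have h : unitPart v n ≤ (unitPart v (n + p)).comap (cat (RingHom.id L) z) := by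
    unfold unitPart
    rw [Submodule.span_le]
    rintro x ⟨a, ha, rfl⟩
    show cat (RingHom.id L) z (symb a) ∈ unitPart v (n + p)
    rw [cat_symb]
    refine Submodule.subset_span ⟨_, fun l => ?_, rfl⟩
    refine Fin.addCases (fun j => ?_) (fun j => ?_) l
    · rw [Fin.append_left]
      exact ha j
    · rw [Fin.append_right]
      exact hz j
  exact h hβ

theorem cat_mem_of_block (v : Valuation L ℤᵐ⁰) {z : Fin p → Lˣ}
    (hz : ∀ a : Fin (n + p) → Lˣ, (∀ i, a (Fin.natAdd n i) = z i) → symb a ∈ unitPart v (n + p))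
    (β : KQ L n) : cat (RingHom.id L) z β ∈ unitPart v (n + p) := by
  have h := mem_span_symb β
  have h1 : Submodule.span ℚ (Set.range (symb : (Fin n → Lˣ) → KQ L n)) ≤
      (unitPart v (n + p)).comap (cat (RingHom.id L) z) := by
    rw [Submodule.span_le]
    rintro x ⟨a, rfl⟩
    show cat (RingHom.id L) z (symb a) ∈ unitPart v (n + p)
    rw [cat_symb]
    exact hz _ fun i => Fin.append_right _ _ _
  exact h1 h

theorem oneUnits_le (v : Valuation L ℤᵐ⁰) : oneUnits v n ≤ unitPart v n := by
  unfold oneUnits
  rw [Submodule.span_le]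
  rintro x ⟨a, k, hk, rfl⟩
  exact mem_unitPart_of_oneUnit' v k a hk

end val

end Pool.Agent.L7h9.SU
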