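import Mathlib
set_option autoImplicit false

/-!
Integrals over the unit cube of functions of multiples of some of the coordinates.
-/

namespace Pool.Agent.L7h9.SU

open MeasureTheory Set

/-- Lebesgue measure on the unit interval -/
noncomputable abbrev mU : Measure ℝ := volume.restrict (Icc (0 : ℝ) 1)

instance : IsProbabilityMeasure mU := ⟨by simp [mU]⟩

theorem mU_eq : mU = volume.restrict (Ioc (0 : ℝ) 1) :=
  (Measure.restrict_congr_set Ioc_ae_eq_Icc).symm

theorem mU_eq' : mU = volume.restrict (Ico (0 : ℝ) 1) :=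
  (Measure.restrict_congr_set Ico_ae_eq_Icc).symm

theorem restrict_cube (d : ℕ) : (volume : Measure (Fin d → ℝ)).restrict (Icc 0 1) =
    Measure.pi fun _ => mU := by
  rw [← Set.pi_univ_Icc, volume_pi, Measure.restrict_pi_pi]
  rfl

/-- the representative in `[0, 1)` -/
noncomputable def rep (x : AddCircle (1 : ℝ)) : ℝ := (AddCircle.measurableEquivIco (1 : ℝ) 0 x : ℝ)

theorem measurable_rep : Measurable rep :=
  measurable_subtype_coe.comp (AddCircle.measurableEquivIco (1 : ℝ) 0).measurable

theorem rep_coe (y : ℝ) : rep (y : AddCircle (1 : ℝ)) = Int.fract y := by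
  have h := AddCircle.coe_equivIco_mk_apply (p := (1 : ℝ)) y
  rw [div_one, mul_one] at h
  exact h

theorem mp_mk : MeasurePreserving (fun y : ℝ => (y : AddCircle (1 : ℝ))) mU volume := by
  have h := AddCircle.measurePreserving_mk (1 : ℝ) 0
  rw [zero_add] at h
  rw [mU_eq]
  exact h

theorem mp_nsmul {k : ℕ} (hk : 0 < k) :
    MeasurePreserving (fun y : AddCircle (1 : ℝ) => k • y) volume volume := by
  rcases Nat.lt_or_ge 1 k with h | h
  · exact (AddCircle.ergodic_nsmul h).toMeasurePreserving
  · have h1 : k = 1 := by omega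
    subst h1
    simp only [one_smul]
    exact MeasurePreserving.id _

theorem mp_rep : MeasurePreserving rep volume mU := by
  refine ⟨measurable_rep, ?_⟩
  rw [← mp_mk.map_eq, Measure.map_map measurable_rep mp_mk.measurable]
  have h : (rep ∘ fun y : ℝ => (y : AddCircle (1 : ℝ))) =ᵐ[mU] id := by
    rw [mU_eq']
    refine (ae_restrict_iff' measurableSet_Ico).2 (Filter.Eventually.of_forall fun y hy => ?_)
    show rep (y : AddCircle (1 : ℝ)) = y
    rw [rep_coe, Int.fract_eq_self.2 hy]
  rw [Measure.map_congr h, Measure.map_id]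

theorem mp_fract {k : ℕ} (hk : 0 < k) :
    MeasurePreserving (fun y : ℝ => Int.fract ((k : ℝ) * y)) mU mU := by
  have h := (mp_rep.comp (mp_nsmul hk)).comp mp_mk
  have h1 : (fun y : ℝ => Int.fract ((k : ℝ) * y)) =
      (rep ∘ fun y : AddCircle (1 : ℝ) => k • y) ∘ fun y : ℝ => (y : AddCircle (1 : ℝ)) := by
    funext y
    show _ = rep (k • (y : AddCircle (1 : ℝ)))
    rw [← AddCircle.coe_nsmul, rep_coe, nsmul_eq_mul]
  rw [h1]
  exact h

theorem mp_pi {d m : ℕ} {p : Fin m → Fin d} (hp : Function.Injective p) {f : Fin m → ℝ → ℝ}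
    (hf : ∀ i, MeasurePreserving (f i) mU mU) :
    MeasurePreserving (fun (x : Fin d → ℝ) i => f i (x (p i))) (Measure.pi fun _ => mU)
      (Measure.pi fun _ => mU) := by
  classical
  have hm : Measurable fun (x : Fin d → ℝ) i => f i (x (p i)) :=
    measurable_pi_iff.2 fun i => (hf i).measurable.comp (measurable_pi_apply _)
  refine ⟨hm, (Measure.pi_eq fun s hs => ?_).symm⟩
  rw [Measure.map_apply hm (MeasurableSet.univ_pi hs)]
  set t : Fin d → Set ℝ := Function.extend p (fun i => f i ⁻¹' s i) fun _ => univ with ht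
  have h1 : (fun (x : Fin d → ℝ) i => f i (x (p i))) ⁻¹' univ.pi s = univ.pi t := by
    ext x
    simp only [mem_preimage, mem_pi, mem_univ, forall_true_left]
    constructor
    · intro h j
      by_cases hj : ∃ i, p i = j
      · obtain ⟨i, rfl⟩ := hj
        rw [ht, hp.extend_apply]
        exact h i
      · rw [ht, Function.extend_apply' _ _ _ hj]
        exact mem_univ _
    · intro h i
      have h2 := h (p i)
      rw [ht, hp.extend_apply] at h2
      exact h2
  rw [h1, Measure.pi_pi]
  have h2 : ∀ j, j ∉ Finset.univ.image p → mU (t j) = 1 := by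
    intro j hj
    rw [ht, Function.extend_apply' _ _ _ fun ⟨i, hi⟩ =>
      hj (Finset.mem_image.2 ⟨i, Finset.mem_univ i, hi⟩)]
    exact measure_univ
  rw [← Finset.prod_subset (Finset.subset_univ (Finset.univ.image p)) fun j _ hj => h2 j hj,
    Finset.prod_image fun i _ j _ h => hp h]
  refine Finset.prod_congr rfl fun i _ => ?_
  rw [ht, hp.extend_apply, (hf i).measure_preimage (hs i).nullMeasurableSet]

theorem integral_sub {d m : ℕ} {p : Fin m → Fin d} (hp : Function.Injective p)
    {f : Fin m → ℝ → ℝ} (hf : ∀ i, MeasurePreserving (f i) mU mU) {φ : (Fin m → ℝ) → ℝ}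
    (hφ : Continuous φ) :
    ∫ x in Icc (0 : Fin d → ℝ) 1, φ (fun i => f i (x (p i))) = ∫ x in Icc (0 : Fin m → ℝ) 1, φ x := by
  rw [restrict_cube, restrict_cube, ← (mp_pi hp hf).map_eq, integral_map
    (mp_pi hp hf).measurable.aemeasurable hφ.aestronglyMeasurable]

end Pool.Agent.L7h9.SU
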