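import Pool.Agent.L7h9.SU.Log
import Pool.Agent.L7h9.SU.Meas
import Pool.Agent.N65.TL.Tor
set_option autoImplicit false

/-!
The asymptotic behaviour of the regulator integrals of `{u_1, ..., u_n, z_0, ..., z_s}` on tori of
dimension `n + s`, where the `u_i` are functions on a torus of dimension `n`.
-/

namespace Pool.Agent.L7h9.SU

open MeasureTheory Set

open Pool.Agent.TH826.MK

open Pool.Agent.N65.TL

section blk

variable (n s : ℕ)

/-- the columns -/
def cfun : Fin n ⊕ Fin (s + 1) → Fin (n + s + 1) :=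
  Sum.elim (fun j => (Fin.castAdd s j).succ) (Fin.cons 0 fun l => (Fin.natAdd n l).succ)

theorem cfun_inj : Function.Injective (cfun n s) := by
  have h1 : ∀ j, (cfun n s (Sum.inl j)).val = j.val + 1 := fun j => rfl
  have h2 : (cfun n s (Sum.inr 0)).val = 0 := rfl
  have h3 : ∀ l : Fin s, (cfun n s (Sum.inr l.succ)).val = n + l.val + 1 := fun l => rfl
  rintro (i | a) (j | b) h
  · have := congrArg Fin.val h
    rw [h1, h1] at this
    congr 1
    exact Fin.ext (by omega)
  · exfalso
    have := congrArg Fin.val h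
    refine Fin.cases (fun this => ?_) (fun l this => ?_) b this
    · rw [h1, h2] at this
      omega
    · rw [h1, h3] at this
      have := i.isLt
      omega
  · exfalso
    have := congrArg Fin.val h
    refine Fin.cases (fun this => ?_) (fun l this => ?_) a this
    · rw [h1, h2] at this
      omega
    · rw [h1, h3] at this
      have := j.isLt
      omega
  · have := congrArg Fin.val h
    congr 1
    refine Fin.cases (fun this => ?_) (fun l this => ?_) a this
    · refine Fin.cases (fun _ => rfl) (fun l' this => ?_) b this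
      rw [h2, h3] at this
      omega
    · refine Fin.cases (fun this => ?_) (fun l' this => ?_) b this
      · rw [h2, h3] at this
        omega
      · rw [h3, h3] at this
        congr 1
        exact Fin.ext (by omega)

/-- the columns -/
noncomputable def cE : Fin n ⊕ Fin (s + 1) ≃ Fin (n + s + 1) :=
  Equiv.ofBijective (cfun n s) ((Fintype.bijective_iff_injective_and_card _).2
    ⟨cfun_inj n s, by simp [add_assoc]⟩)

theorem cE_inl (j : Fin n) : cE n s (Sum.inl j) = (Fin.castAdd s j).succ := rfl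

theorem cE_zero : cE n s (Sum.inr 0) = 0 := rfl

theorem cE_succ (l : Fin s) : cE n s (Sum.inr l.succ) = (Fin.natAdd n l).succ := rfl

/-- the rows -/
def rE : Fin n ⊕ Fin (s + 1) ≃ Fin (n + s + 1) := finSumFinEquiv

/-- the permutation -/
noncomputable def tau : Equiv.Perm (Fin (n + s + 1)) := (rE n s).symm.trans (cE n s)

/-- its sign -/
noncomputable def sg : ℝ := ((Equiv.Perm.sign (tau n s) : ℤ) : ℝ)

theorem sg_mul_self : sg n s * sg n s = 1 := by
  unfold sg
  rw [← Int.cast_mul]
  have h : ((Equiv.Perm.sign (tau n s) : ℤ)) * (Equiv.Perm.sign (tau n s) : ℤ) = 1 := by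
    rw [← Units.val_mul, Int.units_mul_self, Units.val_one]
  rw [h, Int.cast_one]

variable {n s}

theorem det_blk (Q : Fin (n + s + 1) → Fin (n + s + 1) → ℂ) {M : Matrix (Fin n) (Fin n) ℂ}
    {Z : Matrix (Fin (s + 1)) (Fin (s + 1)) ℂ}
    (h1 : ∀ i j, Q (rE n s (Sum.inl i)) (cE n s (Sum.inl j)) = M i j)
    (h3 : ∀ a b, Q (rE n s (Sum.inr a)) (cE n s (Sum.inr b)) = Z a b)
    (h2 : (∀ i b, Q (rE n s (Sum.inl i)) (cE n s (Sum.inr b)) = 0) ∨
      ∀ a j, Q (rE n s (Sum.inr a)) (cE n s (Sum.inl j)) = 0) :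
    (Matrix.of Q).det = sg n s * (M.det * Z.det) := by
  classical
  set b12 : Matrix (Fin n) (Fin (s + 1)) ℂ :=
    Matrix.of fun i b => Q (rE n s (Sum.inl i)) (cE n s (Sum.inr b)) with hb12
  set b21 : Matrix (Fin (s + 1)) (Fin n) ℂ :=
    Matrix.of fun a j => Q (rE n s (Sum.inr a)) (cE n s (Sum.inl j)) with hb21
  set Bl := Matrix.fromBlocks M b12 b21 Z with hBl
  have e : Matrix.of Q = (Bl.submatrix (cE n s).symm (cE n s).symm).submatrix (tau n s) id := by
    ext i j
    obtain ⟨x, rfl⟩ := (rE n s).surjective i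
    obtain ⟨y, rfl⟩ := (cE n s).surjective j
    rw [Matrix.submatrix_apply, Matrix.submatrix_apply, Matrix.of_apply, id_eq]
    have ht : (cE n s).symm (tau n s (rE n s x)) = x := by
      unfold tau
      rw [Equiv.trans_apply, Equiv.symm_apply_apply, Equiv.symm_apply_apply]
    rw [ht, Equiv.symm_apply_apply]
    rcases x with x | x <;> rcases y with y | y
    · rw [hBl, Matrix.fromBlocks_apply₁₁, h1]
    · rw [hBl, Matrix.fromBlocks_apply₁₂]
      rfl
    · rw [hBl, Matrix.fromBlocks_apply₂₁]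
      rfl
    · rw [hBl, Matrix.fromBlocks_apply₂₂, h3]
  rw [e, Matrix.det_permute, Matrix.det_submatrix_equiv_self]
  have hdet : Bl.det = M.det * Z.det := by
    rcases h2 with h2 | h2
    · have h0 : b12 = 0 := by
        ext i b
        exact h2 i b
      rw [hBl, h0, Matrix.det_fromBlocks_zero₁₂]
    · have h0 : b21 = 0 := by
        ext a j
        exact h2 a j
      rw [hBl, h0, Matrix.det_fromBlocks_zero₂₁]
  rw [hdet]
  unfold sg
  push_cast
  rfl

end blk

section unif

variable {m : ℕ}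

theorem det_unif (R : ℝ) {ε : ℝ} (hε : 0 < ε) :
    ∃ δ : ℝ, 0 < δ ∧ ∀ A B : Fin m → Fin m → ℂ, (∀ i j, ‖A i j‖ ≤ R) →
      (∀ i j, ‖B i j - A i j‖ ≤ δ) → ‖(Matrix.of B).det - (Matrix.of A).det‖ ≤ ε := by
  have hc : Continuous fun M : Fin m → Fin m → ℂ => (Matrix.of M).det :=
    Continuous.matrix_det continuous_id
  have hu := (isCompact_closedBall (0 : Fin m → Fin m → ℂ) (|R| + 1)).uniformContinuousOn_of_continuous
    hc.continuousOn
  obtain ⟨δ, hδ, h⟩ := Metric.uniformContinuousOn_iff.1 hu ε hε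
  refine ⟨min (δ / 2) 1, by positivity, fun A B hA hB => ?_⟩
  have hR : 0 ≤ |R| := abs_nonneg R
  have h1 : A ∈ Metric.closedBall (0 : Fin m → Fin m → ℂ) (|R| + 1) := by
    rw [mem_closedBall_zero_iff]
    refine (pi_norm_le_iff_of_nonneg (by linarith)).2 fun i =>
      (pi_norm_le_iff_of_nonneg (by linarith)).2 fun j => ?_
    have := hA i j
    linarith [le_abs_self R]
  have h2 : B ∈ Metric.closedBall (0 : Fin m → Fin m → ℂ) (|R| + 1) := by
    rw [mem_closedBall_zero_iff]
    refine (pi_norm_le_iff_of_nonneg (by linarith)).2 fun i =>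
      (pi_norm_le_iff_of_nonneg (by linarith)).2 fun j => ?_
    have e : B i j = A i j + (B i j - A i j) := by ring
    rw [e]
    refine (norm_add_le _ _).trans ?_
    have h3 := hA i j
    have h4 := (hB i j).trans (min_le_right _ _)
    linarith [le_abs_self R]
  have h3 : dist B A < δ := by
    refine lt_of_le_of_lt ?_ (half_lt_self hδ)
    rw [dist_eq_norm]
    refine (pi_norm_le_iff_of_nonneg (by linarith)).2 fun i =>
      (pi_norm_le_iff_of_nonneg (by linarith)).2 fun j => ?_
    exact (hB i j).trans (min_le_left _ _)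
  have h4 := h B h2 A h1 h3
  rw [dist_eq_norm] at h4
  exact h4.le

end unif

section pul

variable {n s k : ℕ}

/-- `θ ↦ k (θ_1, ..., θ_n)` -/
noncomputable def pul (n s k : ℕ) : (Fin (n + s) → ℝ) →L[ℝ] (Fin n → ℝ) :=
  ContinuousLinearMap.pi fun i => (k : ℝ) • ContinuousLinearMap.proj (Fin.castAdd s i)

theorem pul_apply (θ : Fin (n + s) → ℝ) (i : Fin n) :
    pul n s k θ i = k * θ (Fin.castAdd s i) := rfl

theorem pul_cast (j : Fin n) :
    pul n s k (Pi.single (Fin.castAdd s j) 1) = (k : ℝ) • Pi.single j 1 := by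
  funext i
  rw [pul_apply, Pi.smul_apply, smul_eq_mul]
  congr 1
  by_cases h : i = j
  · subst h
    rw [Pi.single_eq_same, Pi.single_eq_same]
  · rw [Pi.single_eq_of_ne h, Pi.single_eq_of_ne fun h1 => h (Fin.castAdd_injective _ _ h1)]

theorem cast_ne_nat (i : Fin n) (l : Fin s) : Fin.castAdd s i ≠ Fin.natAdd n l := by
  intro h
  have h1 := congrArg Fin.val h
  rw [Fin.val_castAdd, Fin.val_natAdd] at h1
  have := i.isLt
  omega

theorem pul_nat (l : Fin s) : pul n s k (Pi.single (Fin.natAdd n l) 1) = 0 := by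
  funext i
  rw [pul_apply, Pi.single_eq_of_ne (cast_ne_nat i l), mul_zero, Pi.zero_apply]

variable {g : (Fin n → ℝ) → ℂ}

theorem good_pul (hg : Good g) : Good fun θ => g (pul n s k θ) :=
  ⟨hg.smooth.comp (pul n s k).contDiff, fun θ => hg.ne_zero _⟩

theorem fract_pul (θ : Fin (n + s) → ℝ) (j : Fin (n + s)) :
    (fun i => Int.fract (pul n s k (θ + Pi.single j 1) i)) =
      fun i => Int.fract (pul n s k θ i) := by
  funext i
  rw [pul_apply, pul_apply, Pi.add_apply, mul_add]
  by_cases h : Fin.castAdd s i = j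
  · subst h
    rw [Pi.single_eq_same, mul_one]
    exact Int.fract_add_natCast _ _
  · rw [Pi.single_eq_of_ne h, mul_zero, add_zero]

theorem pul_per {E : Type*} {F : (Fin n → ℝ) → E} (hp : ∀ θ i, F (θ + Pi.single i 1) = F θ)
    (θ : Fin (n + s) → ℝ) (j : Fin (n + s)) :
    F (pul n s k (θ + Pi.single j 1)) = F (pul n s k θ) := by
  rw [← per_fract hp (pul n s k (θ + Pi.single j 1)), ← per_fract hp (pul n s k θ), fract_pul]

theorem lw_pul (hg : Good g) (j : Fin (n + s)) (θ : Fin (n + s) → ℝ) :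
    lw (fun θ => g (pul n s k θ)) j θ =
      fderiv ℝ g (pul n s k θ) (pul n s k (Pi.single j 1)) / g (pul n s k θ) := by
  unfold lw
  have h1 := (hg.smooth.differentiable (by norm_num)) (pul n s k θ)
  have h2 : fderiv ℝ (fun θ => g (pul n s k θ)) θ =
      (fderiv ℝ g (pul n s k θ)).comp (pul n s k) :=
    (h1.hasFDerivAt.comp θ (pul n s k).hasFDerivAt).fderiv
  rw [h2]
  rfl

theorem lw_pul_cast (hg : Good g) (j : Fin n) (θ : Fin (n + s) → ℝ) :
    lw (fun θ => g (pul n s k θ)) (Fin.castAdd s j) θ = k * lw g j (pul n s k θ) := by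
  rw [lw_pul hg, pul_cast, map_smul]
  unfold lw
  rw [Complex.real_smul, mul_div_assoc, Complex.ofReal_natCast]

theorem lw_pul_nat (hg : Good g) (l : Fin s) (θ : Fin (n + s) → ℝ) :
    lw (fun θ => g (pul n s k θ)) (Fin.natAdd n l) θ = 0 := by
  rw [lw_pul hg, pul_nat, map_zero, zero_div]

theorem tl_cons (x : ℝ) (θ : Fin n → ℝ) : tl n (Fin.cons x θ) = θ := by
  funext i
  rw [tl_apply, Fin.cons_succ]

theorem grow_pul_cast (hg : Good g) (j : Fin n) (y : Fin (n + s + 1) → ℝ) :
    grow (fun θ => g (pul n s k θ)) y (Fin.castAdd s j).succ =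
      k * grow g (Fin.cons (y 0) (pul n s k (tl (n + s) y))) j.succ := by
  rw [grow_succ, grow_succ, lw_pul_cast hg, tl_cons, Fin.cons_zero, ← Complex.ofReal_natCast,
    Complex.re_ofReal_mul, Complex.im_ofReal_mul]
  push_cast
  ring

theorem grow_pul_nat (hg : Good g) (l : Fin s) (y : Fin (n + s + 1) → ℝ) :
    grow (fun θ => g (pul n s k θ)) y (Fin.natAdd n l).succ = 0 := by
  rw [grow_succ, lw_pul_nat hg]
  simp

end pul

section int

variable {n s k : ℕ}

theorem integrand_per {G : Fin (n + 1) → (Fin n → ℝ) → ℂ} (hp : ∀ l, Per (G l)) (x : ℝ)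
    (θ : Fin n → ℝ) (i : Fin n) :
    integrand G (Fin.cons x (θ + Pi.single i 1)) = integrand G (Fin.cons x θ) := by
  have h1 : (Fin.cons x (θ + Pi.single i 1) : Fin (n + 1) → ℝ) =
      (Fin.cons x θ : Fin (n + 1) → ℝ) + Pi.single i.succ 1 := by
    funext j
    refine Fin.cases ?_ (fun j => ?_) j
    · rw [Pi.add_apply, Fin.cons_zero, Fin.cons_zero,
        Pi.single_eq_of_ne (Fin.succ_ne_zero i).symm, add_zero]
    · rw [Pi.add_apply, Fin.cons_succ, Fin.cons_succ, Pi.add_apply]
      congr 1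
      by_cases h : j = i
      · subst h
        rw [Pi.single_eq_same, Pi.single_eq_same]
      · rw [Pi.single_eq_of_ne h, Pi.single_eq_of_ne fun h1 => h (Fin.succ_injective _ h1)]
  rw [h1]
  unfold integrand
  congr 3
  ext l j
  rw [Matrix.of_apply, Matrix.of_apply, (hp l).grow]

theorem integral_pul (hk : 0 < k) {G : Fin (n + 1) → (Fin n → ℝ) → ℂ} (hg : ∀ l, Good (G l))
    (hp : ∀ l, Per (G l)) :
    ∫ y in Icc (0 : Fin (n + s + 1) → ℝ) 1,
      integrand G (Fin.cons (y 0) (pul n s k (tl (n + s) y))) = pairing G := by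
  have h := integral_sub (d := n + s + 1) (m := n + 1)
    (p := Fin.cons 0 fun i => (Fin.castAdd s i).succ)
    (Fin.cons_injective_iff.2 ⟨by
      rintro ⟨i, hi⟩
      exact Fin.succ_ne_zero _ hi, fun i j h =>
      Fin.castAdd_injective _ _ (Fin.succ_injective _ h)⟩)
    (f := Fin.cons id fun _ y => Int.fract ((k : ℝ) * y))
    (fun i => Fin.cases (MeasurePreserving.id _) (fun _ => mp_fract hk) i)
    (continuous_integrand hg)
  unfold pairing
  rw [← h]
  refine integral_congr_ae (Filter.Eventually.of_forall fun y => ?_)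
  show integrand G _ = integrand G _
  rw [← per_fract (F := fun θ => integrand G (Fin.cons (y 0) θ)) (integrand_per hp (y 0))
    (pul n s k (tl (n + s) y))]
  congr 1
  funext i
  refine Fin.cases ?_ (fun i => ?_) i
  · rfl
  · rfl

theorem integrand_scale {d : ℕ} (g : Fin (d + 1) → (Fin d → ℝ) → ℂ) {t : ℝ} (ht : t ≠ 0)
    (y : Fin (d + 1) → ℝ) :
    integrand g y / t = ((-Complex.I) ^ d * (Matrix.of fun l =>
      (Fin.cons ((Real.log ‖g l (tl d y)‖ / t : ℝ) : ℂ) fun j => grow (g l) y j.succ :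
        Fin (d + 1) → ℂ)).det).re := by
  have hsc : (t : ℂ) ≠ 0 := by exact_mod_cast ht
  rw [div_eq_iff ht]
  unfold integrand
  have e : (Matrix.of fun l => grow (g l) y) = Matrix.of fun l j =>
      (Fin.cons (t : ℂ) fun _ => 1 : Fin (d + 1) → ℂ) j * (Matrix.of fun l =>
      (Fin.cons ((Real.log ‖g l (tl d y)‖ / t : ℝ) : ℂ) fun j => grow (g l) y j.succ :
        Fin (d + 1) → ℂ)) l j := by
    ext l j
    rw [Matrix.of_apply, Matrix.of_apply, Matrix.of_apply]
    refine Fin.cases ?_ (fun j => ?_) j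
    · simp only [Fin.cons_zero, grow_zero]
      push_cast
      field_simp
    · simp only [Fin.cons_succ, one_mul]
  rw [e, Matrix.det_mul_row, Fin.prod_univ_succ]
  simp only [Fin.cons_zero, Fin.cons_succ, Finset.prod_const_one, mul_one]
  rw [mul_comm _ t, ← Complex.re_ofReal_mul]
  congr 1
  ring

end int

end Pool.Agent.L7h9.SU
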