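import Pool.Agent.L7h9.SU.Tor
import Pool.Agent.L7h9.LT.Tor
set_option autoImplicit false

/-!
Tori in the affine space near a corner of a tower of graphs, and the periods of the symbols
`{u_0, ..., u_n}` on them.
-/

namespace Pool.Agent.L7h9.SU

open Filter Topology MeasureTheory Set

open MvPolynomial

open Pool.Agent.TH826.MK

open Pool.Agent.TH826.SX (pairing_close det_ne_zero_near)

open Pool.Agent.TH577.UA

open Pool.Agent.N65.TL

open Pool.Agent.Y797.TW (Tower exists_chart exists_rapid nex ex mch wcc eval_mch prod_wcc hh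
  contDiff_hh hh_zero contDiff_wcc wcc_zero fct det_ex sum_nex IsLow)

section scale

variable {d : ℕ}

/-- The regulator integral after multiplication of the angles with an integer. -/
theorem pairing_scale {k : ℕ} (hk : 0 < k) {G : Fin (d + 1) → (Fin d → ℝ) → ℂ}
    (hg : ∀ l, Good (G l)) (hp : ∀ l, Per (G l)) :
    pairing (fun l θ => G l ((k : ℝ) • θ)) = (k : ℝ) ^ d * pairing G := by
  have h1 : ∀ y : Fin (d + 1) → ℝ, integrand (fun l θ => G l ((k : ℝ) • θ)) y =
      (k : ℝ) ^ d * integrand G (Fin.cons (y 0) (pul d 0 k (tl d y))) := by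
    intro y
    unfold integrand
    have e : (Matrix.of fun l => grow (fun θ => G l ((k : ℝ) • θ)) y) = Matrix.of fun l j =>
        (Fin.cons (1 : ℂ) fun _ => (k : ℂ) : Fin (d + 1) → ℂ) j * (Matrix.of fun l =>
        grow (G l) (Fin.cons (y 0) (pul d 0 k (tl d y)))) l j := by
      ext l j
      rw [Matrix.of_apply, Matrix.of_apply, Matrix.of_apply]
      refine Fin.cases ?_ (fun j => ?_) j
      · rw [grow_zero, grow_zero, Fin.cons_zero, one_mul]
        rfl
      · rw [grow_succ, grow_succ, Fin.cons_succ]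
        have h2 : lw (fun θ => G l ((k : ℝ) • θ)) j (tl d y) =
            k * lw (G l) j (pul d 0 k (tl d y)) := lw_pul_cast (s := 0) (hg l) j (tl d y)
        have h3 : tl d (Fin.cons (y 0) (pul d 0 k (tl d y)) : Fin (d + 1) → ℝ) =
            pul d 0 k (tl d y) := rfl
        rw [h2, h3, Fin.cons_zero]
        have h4 : ((k : ℂ) * lw (G l) j (pul d 0 k (tl d y))).re =
            k * (lw (G l) j (pul d 0 k (tl d y))).re := by
          rw [← Complex.ofReal_natCast, Complex.re_ofReal_mul]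
        have h5 : ((k : ℂ) * lw (G l) j (pul d 0 k (tl d y))).im =
            k * (lw (G l) j (pul d 0 k (tl d y))).im := by
          rw [← Complex.ofReal_natCast, Complex.im_ofReal_mul]
        rw [h4, h5]
        push_cast
        ring
    rw [e, Matrix.det_mul_row, Fin.prod_univ_succ]
    simp only [Fin.cons_zero, Fin.cons_succ, Finset.prod_const, Finset.card_univ,
      Fintype.card_fin, one_mul]
    have h6 : ((k : ℂ)) ^ d = (((k : ℝ) ^ d : ℝ) : ℂ) := by push_cast; rfl
    rw [h6, mul_left_comm, Complex.re_ofReal_mul]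
  have h2 := integral_pul (n := d) (s := 0) hk hg hp
  unfold pairing at h2 ⊢
  rw [← h2, ← integral_const_mul]
  exact setIntegral_congr_fun measurableSet_Icc fun y _ => h1 y

theorem grow_const (b : ℂ) (y : Fin (d + 1) → ℝ) :
    grow (fun _ => b) y = Fin.cons ((Real.log ‖b‖ : ℝ) : ℂ) 0 := by
  funext j
  refine Fin.cases ?_ (fun j => ?_) j
  · rw [grow_zero, Fin.cons_zero]
  · rw [grow_succ, lw_const, Fin.cons_succ]
    simp

/-- The dependence on a constant entry. -/
theorem pairing_const {n : ℕ} (u : Fin n → (Fin n → ℝ) → ℂ) (b : ℂ) :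
    pairing (d := n) (Fin.append u fun (_ : Fin 1) _ => b) * Real.log 2 =
      Real.log ‖b‖ * pairing (d := n) (Fin.append u fun (_ : Fin 1) _ => (2 : ℂ)) := by
  have h1 : ∀ (b : ℂ) (y : Fin (n + 1) → ℝ),
      (Matrix.of fun l => grow ((Fin.append u fun (_ : Fin 1) _ => b : Fin (n + 1) → _) l) y) =
      (Matrix.of fun l => grow ((Fin.append u fun (_ : Fin 1) _ => (2 : ℂ) :
        Fin (n + 1) → _) l) y).updateRow (Fin.natAdd n (0 : Fin 1))
        (((Real.log ‖b‖ : ℝ) : ℂ) • (Fin.cons 1 0 : Fin (n + 1) → ℂ)) := by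
    intro b y
    ext l j
    obtain ⟨x, rfl⟩ := (rE n 0).surjective l
    rcases x with i | a
    · have e1 : rE n 0 (Sum.inl i) = Fin.castAdd 1 i := rfl
      rw [e1, Matrix.updateRow_ne (by
        intro h
        have := congrArg Fin.val h
        rw [Fin.val_castAdd, Fin.val_natAdd] at this
        have := i.isLt
        omega), Matrix.of_apply, Matrix.of_apply, Fin.append_left, Fin.append_left]
    · have e1 : rE n 0 (Sum.inr a) = Fin.natAdd n (0 : Fin 1) := by
        have ha : a = 0 := Subsingleton.elim (α := Fin 1) a 0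
        rw [ha]
        rfl
      rw [e1, Matrix.updateRow_self, Matrix.of_apply, Fin.append_right, grow_const]
      refine Fin.cases ?_ (fun j => ?_) j
      · simp
      · simp
  have h2 : ∀ y, integrand (d := n) (Fin.append u fun (_ : Fin 1) _ => b) y * Real.log 2 =
      Real.log ‖b‖ * integrand (d := n) (Fin.append u fun (_ : Fin 1) _ => (2 : ℂ)) y := by
    intro y
    unfold integrand
    rw [h1 b y, h1 2 y, Matrix.updateRow_idem, Matrix.det_updateRow_smul,
      Matrix.det_updateRow_smul]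
    set M := (Matrix.updateRow (Matrix.of fun l => grow ((Fin.append u
      fun (_ : Fin 1) _ => (2 : ℂ) : Fin (n + 1) → _) l) y) (Fin.natAdd n (0 : Fin 1))
      (Fin.cons 1 0 : Fin (n + 1) → ℂ)).det
    rw [Complex.norm_ofNat, mul_left_comm, Complex.re_ofReal_mul, mul_left_comm,
      Complex.re_ofReal_mul]
    ring
  unfold pairing
  rw [← integral_mul_const, ← integral_const_mul]
  exact setIntegral_congr_fun measurableSet_Icc fun y _ => h2 y

end scale

section base

variable {K : Type*} [Field K] {n : ℕ} {A : Tower K n}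

/-- the matrix of the logarithms and the winding numbers -/
noncomputable def bmat (P Q : Fin (n + 1) → Fin (n + 1) → ℕ) :
    Matrix (Fin (n + 1 + 1)) (Fin (n + 1 + 1)) ℝ :=
  Matrix.of (Fin.append (m := n + 1) (n := 1)
    (fun l => (Fin.cons 0 fun j => (P l j : ℝ) - Q l j : Fin (n + 1 + 1) → ℝ))
    fun _ => Fin.cons 1 0)

theorem bmat_left (P Q : Fin (n + 1) → Fin (n + 1) → ℕ) (l : Fin (n + 1)) :
    bmat P Q (rE (n + 1) 0 (Sum.inl l)) = Fin.cons 0 fun j => (P l j : ℝ) - Q l j := by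
  show Fin.append (m := n + 1) (n := 1) (fun l => (Fin.cons 0 fun j => (P l j : ℝ) - Q l j :
    Fin (n + 1 + 1) → ℝ)) (fun _ => Fin.cons 1 0) (Fin.castAdd 1 l) = _
  exact Fin.append_left _ _ l

theorem bmat_right (P Q : Fin (n + 1) → Fin (n + 1) → ℕ) (a : Fin 1) :
    bmat P Q (rE (n + 1) 0 (Sum.inr a)) = Fin.cons 1 0 := by
  show Fin.append (m := n + 1) (n := 1) (fun l => (Fin.cons 0 fun j => (P l j : ℝ) - Q l j :
    Fin (n + 1 + 1) → ℝ)) (fun _ => Fin.cons 1 0) (Fin.natAdd (n + 1) a) = _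
  exact Fin.append_right _ _ a

theorem det_bmat (P Q : Fin (n + 1) → Fin (n + 1) → ℕ) :
    (bmat P Q).det = sg (n + 1) 0 * (Matrix.of fun l j => (P l j : ℝ) - Q l j).det := by
  have h1 := det_blk (n := n + 1) (s := 0)
    (fun l j => ((bmat P Q l j : ℝ) : ℂ))
    (M := (Matrix.of fun l j => (P l j : ℝ) - Q l j).map Complex.ofRealHom)
    (Z := (1 : Matrix (Fin 1) (Fin 1) ℝ).map Complex.ofRealHom) (fun i j => by
      rw [bmat_left, cE_inl, Fin.cons_succ]
      rfl) (fun a b => by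
      have ha : a = 0 := Subsingleton.elim (α := Fin 1) a 0
      have hb : b = 0 := Subsingleton.elim (α := Fin 1) b 0
      rw [bmat_right, hb, cE_zero, Fin.cons_zero, ha]
      simp) (Or.inl fun i b => by
      have hb : b = 0 := Subsingleton.elim (α := Fin 1) b 0
      rw [bmat_left, hb, cE_zero, Fin.cons_zero, Complex.ofReal_zero])
  have h2 : (Matrix.of fun l j => ((bmat P Q l j : ℝ) : ℂ)) =
      (bmat P Q).map Complex.ofRealHom := rfl
  rw [h2] at h1
  have h3 : ∀ {m : ℕ} (M : Matrix (Fin m) (Fin m) ℝ), (M.map Complex.ofRealHom).det =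
      ((M.det : ℝ) : ℂ) := fun M => (Complex.ofRealHom.map_det M).symm
  rw [h3, h3, h3, Matrix.det_one, Complex.ofReal_one, mul_one, ← Complex.ofReal_mul] at h1
  exact_mod_cast h1

/-- the functions `u_0, ..., u_n, 2` -/
noncomputable def bfun (A : Tower K n) (σ : K →+* ℂ) (X : (Fin (n + 1) → ℝ) → Fin (n + 1) → ℂ)
    (k : ∀ j, Fin (A.r j)) : Fin (n + 1 + 1) → (Fin (n + 1) → ℝ) → ℂ :=
  Fin.append (m := n + 1) (n := 1)
    (fun l θ => eval₂ σ (X θ) (fct A (some ⟨l, (k l).succ⟩)) /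
      eval₂ σ (X θ) (fct A (some ⟨l, 0⟩))) fun _ _ => (2 : ℂ)

theorem exists_base (σ : K →+* ℂ) (hG : A.Graphs) (c : ∀ j, Fin (A.r j)) {ε : ℝ}
    (hε : 0 < ε) :
    ∃ X : (Fin (n + 1) → ℝ) → Fin (n + 1) → ℂ, ContDiff ℝ 2 X ∧
      (∀ θ j, X (θ + Pi.single j 1) = X θ) ∧ (∀ θ e, eval₂ σ (X θ) (fct A e) ≠ 0) ∧
      ∀ k : ∀ j, Fin (A.r j), |pairing (bfun A σ X k) / Real.log 2 -
        (2 * Real.pi) ^ (n + 1) * (sg (n + 1) 0 * if k = c then 1 else 0)| ≤ ε := by
  classical
  have hpi := Real.pi_pos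
  have hlog2 : 0 < Real.log 2 := Real.log_pos one_lt_two
  obtain ⟨x, ao, hao, hao1, hao2⟩ := exists_chart A σ hG fun j => (c j).succ
  set D0 : ℕ := ∑ e, ∑ j, ao e j with hD0
  have hD : ∀ e j, ao e j ≤ D0 := fun e j =>
    (Finset.single_le_sum (f := fun j => ao e j) (fun _ _ => Nat.zero_le _)
      (Finset.mem_univ j)).trans
    (Finset.single_le_sum (f := fun e => ∑ j, ao e j) (fun _ _ => Nat.zero_le _)
      (Finset.mem_univ e))
  obtain ⟨m, hm⟩ := exists_rapid D0 (n + 1)
  set mu : Option ((j : Fin (n + 1)) × Fin (A.r j + 1)) → Fin (n + 1) → ℕ :=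
    fun e => nex m fun i => ao e i with hmu
  set h : Option ((j : Fin (n + 1)) × Fin (A.r j + 1)) → (Fin n → ℂ) × ℂ → ℂ :=
    fun e y => hh m (bind₁ x (map σ (fct A e))) (ao e) (wcc y) with hh'
  have hfac : ∀ e y, MvPolynomial.eval (mch m (wcc y)) (bind₁ x (map σ (fct A e))) =
      mmon (mu e) y * h e y := fun e y => by
    rw [eval_mch hm (hao e) (hD e), prod_wcc]
  have hcd : ∀ e, ContDiff ℂ 2 (h e) := fun e => (contDiff_hh m _ _).comp contDiff_wcc
  have hne : ∀ e, h e 0 ≠ 0 := fun e => by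
    simp only [hh']
    rw [wcc_zero]
    exact hh_zero hm (hao e) (hD e)
  set P : (∀ j, Fin (A.r j)) → Fin (n + 1) → Fin (n + 1) → ℕ :=
    fun k' l => mu (some ⟨l, (k' l).succ⟩) with hP
  set Q' : Fin (n + 1) → Fin (n + 1) → ℕ := fun l => mu (some ⟨l, 0⟩) with hQ'
  have hdet : ∀ k' : ∀ j, Fin (A.r j), (bmat (P k') Q').det =
      sg (n + 1) 0 * if k' = c then 1 else 0 := fun k' => by
    rw [det_bmat]
    congr 1
    exact Pool.Agent.L7h9.LT.det_ord m ao c hao1 hao2 k'
  choose δ hδ hclose using fun k' : ∀ j, Fin (A.r j) =>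
    pairing_close (bmat (P k') Q') hε
  obtain ⟨T0, -, hT0⟩ := Finset.exists_min_image Finset.univ δ ⟨c, Finset.mem_univ _⟩
  set δ0 : ℝ := δ T0 / 4 with hδ0
  have hδ0pos : 0 < δ0 := div_pos (hδ T0) (by norm_num)
  have hδle : ∀ T', 3 * δ0 < δ T' := by
    intro T'
    have h1 := hT0 T' (Finset.mem_univ T')
    have := hδ T0
    rw [hδ0]
    linarith
  obtain ⟨Cc, ρ, hC, hρ, hρ1, hrho⟩ := exists_rho (k := 1) one_pos h
    (fun e => (hcd e).contDiffAt) hne (P := fun _ => True) (Eventually.of_forall fun _ => trivial)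
    hδ0pos
  obtain ⟨-, hfun⟩ := hrho (n + 1) id
  set Y : (Fin (n + 1) → ℝ) → (Fin n → ℂ) × ℂ := yk 1 ρ id with hY
  have hhg : ∀ e, Good fun θ => h e (Y θ) := fun e => (hfun e).1
  have hhlog : ∀ e θ, |Real.log ‖h e (Y θ)‖| ≤ Cc := fun e θ => ((hfun e).2 θ).1
  have hhlw : ∀ e θ j, ‖lw (fun θ => h e (Y θ)) j θ‖ ≤ δ0 := fun e θ j => ((hfun e).2 θ).2 j
  set X : (Fin (n + 1) → ℝ) → Fin (n + 1) → ℂ := fun θ j =>
    MvPolynomial.eval (mch m (wcc (Y θ))) (x j) with hX
  have hval : ∀ (p : MvPolynomial (Fin (n + 1)) K) θ, eval₂ σ (X θ) p =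
      MvPolynomial.eval (mch m (wcc (Y θ))) (bind₁ x (map σ p)) := by
    intro p θ
    unfold MvPolynomial.eval
    rw [MvPolynomial.eval₂Hom_bind₁]
    show _ = MvPolynomial.eval₂ (RingHom.id ℂ) _ (map σ p)
    rw [MvPolynomial.eval₂_map, RingHom.id_comp]
    rfl
  have hmch : ContDiff ℂ 2 fun u : (Fin n → ℂ) × ℂ => mch m (wcc u) := by
    refine contDiff_pi.2 fun j => ?_
    unfold mch
    exact contDiff_prod fun l _ => (contDiff_pi.1 contDiff_wcc l).pow _
  have hXc : ContDiff ℝ 2 X := by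
    refine contDiff_pi.2 fun j => ?_
    have h1 : ∀ p : MvPolynomial (Fin (n + 1)) ℂ, ContDiff ℂ 2
        fun u : (Fin n → ℂ) × ℂ => MvPolynomial.eval (mch m (wcc u)) p := by
      intro p
      induction p using MvPolynomial.induction_on with
      | C c => simpa using contDiff_const
      | add p q hp hq => simpa using hp.add hq
      | mul_X p k hp => simpa using hp.mul (contDiff_pi.1 hmch k)
    exact ((h1 (x j)).restrict_scalars ℝ).comp (contDiff_yk hρ)
  have hXp : ∀ θ j, X (θ + Pi.single j 1) = X θ := fun θ j => by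
    simp only [hX, hY, yk_add_single]
  -- the factors
  set lc : (Fin (n + 1) → ℝ) → Option ((j : Fin (n + 1)) × Fin (A.r j + 1)) → ℂ :=
    fun θ e => eval₂ σ (X θ) (fct A e) with hlc
  have hLfun : ∀ e, (fun θ => lc θ e) =
      fun θ => mk1 ρ id (fun i => 1 * mu e i) θ * h e (Y θ) := by
    intro e
    funext θ
    simp only [hlc]
    rw [hval, hfac, hY, mmon_yk]
  have hLg : ∀ e, Good fun θ => lc θ e := fun e => by
    rw [hLfun]
    exact (good_mk1 hρ _).mul (hhg e)
  set Mu : ℝ := ∑ e, ∑ i, (mu e i : ℝ) with hMu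
  have hMu0 : 0 ≤ Mu := by positivity
  have hMue : ∀ e, ∑ i, (mu e i : ℝ) ≤ Mu := fun e =>
    Finset.single_le_sum (f := fun e => ∑ i, (mu e i : ℝ))
      (fun e _ => Finset.sum_nonneg fun i _ => Nat.cast_nonneg _) (Finset.mem_univ e)
  set C1 : ℝ := Mu * |Real.log ρ| + Cc with hC1
  have hC10 : 0 ≤ C1 := by positivity
  have hLlog : ∀ e θ, |Real.log ‖lc θ e‖| ≤ C1 := by
    intro e θ
    rw [congrFun (hLfun e) θ, norm_mul, Real.log_mul
      (norm_ne_zero_iff.2 ((good_mk1 hρ _).ne_zero θ)) (norm_ne_zero_iff.2 ((hhg e).ne_zero θ)),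
      log_mk1 hρ]
    refine (abs_add_le _ _).trans (add_le_add ?_ (hhlog e θ))
    rw [abs_mul]
    refine mul_le_mul_of_nonneg_right ?_ (abs_nonneg _)
    simp only [one_mul]
    rw [abs_of_nonneg (by positivity)]
    exact hMue e
  have hLlw : ∀ e θ j, ‖lw (fun θ => lc θ e) j θ - 2 * Real.pi * Complex.I * (mu e j : ℂ)‖ ≤
      δ0 := by
    intro e θ j
    rw [hLfun, lw_mul (good_mk1 hρ _) (hhg e), lw_mk1 hρ]
    have h1 : ∑ i, (if j = id i then (((1 * mu e i : ℕ)) : ℂ) else 0) = (mu e j : ℂ) := by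
      rw [Finset.sum_eq_single j]
      · simp
      · intro i _ hi
        rw [if_neg fun h => hi h.symm]
      · intro h
        exact absurd (Finset.mem_univ _) h
    rw [h1, add_sub_cancel_left]
    exact hhlw e θ j
  refine ⟨X, hXc, hXp, fun θ e => (hLg e).ne_zero θ, fun k => ?_⟩
  -- the ratios
  set u : Fin (n + 1) → (Fin (n + 1) → ℝ) → ℂ := fun l θ =>
    lc θ (some ⟨l, (k l).succ⟩) / lc θ (some ⟨l, 0⟩) with hu
  have hug : ∀ l, Good (u l) := fun l =>
    ⟨by
      simp only [hu, div_eq_mul_inv]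
      exact (hLg _).smooth.mul ((hLg _).smooth.inv fun θ => (hLg _).ne_zero θ), fun θ =>
      div_ne_zero ((hLg _).ne_zero θ) ((hLg _).ne_zero θ)⟩
  have humul : ∀ l, (fun θ => u l θ * lc θ (some ⟨l, 0⟩)) =
      fun θ => lc θ (some ⟨l, (k l).succ⟩) := fun l => by
    funext θ
    simp only [hu]
    exact div_mul_cancel₀ _ ((hLg _).ne_zero θ)
  set t : ℝ := 2 * C1 / δ0 + 1 with ht
  have htpos : 0 < t := by positivity
  set g : Fin (n + 1 + 1) → (Fin (n + 1) → ℝ) → ℂ :=
    Fin.append (m := n + 1) (n := 1) u fun _ _ => ((Real.exp t : ℝ) : ℂ) with hg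
  have hgl : ∀ l, g (rE (n + 1) 0 (Sum.inl l)) = u l := fun l =>
    Fin.append_left (m := n + 1) (n := 1) _ _ l
  have hgr : ∀ a, g (rE (n + 1) 0 (Sum.inr a)) = fun _ => ((Real.exp t : ℝ) : ℂ) := fun a =>
    Fin.append_right (m := n + 1) (n := 1) _ _ a
  have hexp : ((Real.exp t : ℝ) : ℂ) ≠ 0 := by exact_mod_cast (Real.exp_pos t).ne'
  have hgg : ∀ l, Good (g l) := by
    intro l
    obtain ⟨r, rfl⟩ := (rE (n + 1) 0).surjective l
    rcases r with i | a
    · rw [hgl]
      exact hug i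
    · rw [hgr]
      exact good_const hexp
  have hnorm : Real.log ‖((Real.exp t : ℝ) : ℂ)‖ = t := by
    rw [Complex.norm_real, Real.norm_eq_abs, abs_of_pos (Real.exp_pos t), Real.log_exp]
  have hmain := hclose k g t htpos.ne' hgg (fun l θ => by
      obtain ⟨r, rfl⟩ := (rE (n + 1) 0).surjective l
      refine lt_of_le_of_lt ?_ (hδle k)
      rcases r with i | a
      · rw [hgl, bmat_left, Fin.cons_zero, sub_zero]
        have h5 : Real.log ‖u i θ‖ =
            Real.log ‖lc θ (some ⟨i, (k i).succ⟩)‖ - Real.log ‖lc θ (some ⟨i, 0⟩)‖ := by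
          have h4 : Real.log ‖u i θ * lc θ (some ⟨i, 0⟩)‖ =
              Real.log ‖lc θ (some ⟨i, (k i).succ⟩)‖ :=
            congrArg (fun z : ℂ => Real.log ‖z‖) (congrFun (humul i) θ)
          rw [norm_mul, Real.log_mul (norm_ne_zero_iff.2 ((hug i).ne_zero θ))
            (norm_ne_zero_iff.2 ((hLg _).ne_zero θ))] at h4
          linarith
        rw [h5, abs_div, abs_of_pos htpos, div_le_iff₀ htpos]
        have a1 := abs_le.1 (hLlog (some ⟨i, (k i).succ⟩) θ)
        have a2 := abs_le.1 (hLlog (some ⟨i, 0⟩) θ)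
        have h6 : |Real.log ‖lc θ (some ⟨i, (k i).succ⟩)‖ - Real.log ‖lc θ (some ⟨i, 0⟩)‖| ≤
            2 * C1 := by
          rw [abs_le]
          constructor <;> linarith [a1.1, a1.2, a2.1, a2.2]
        have h7 : (2 * C1) / δ0 ≤ t := by linarith
        rw [div_le_iff₀ hδ0pos] at h7
        nlinarith
      · rw [hgr, bmat_right, Fin.cons_zero, hnorm, div_self htpos.ne', sub_self, abs_zero]
        positivity) (fun l j θ => by
      obtain ⟨r, rfl⟩ := (rE (n + 1) 0).surjective l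
      refine lt_of_le_of_lt ?_ (hδle k)
      rcases r with i | a
      · rw [hgl, bmat_left, Fin.cons_succ]
        have h1 := hLlw (some ⟨i, (k i).succ⟩) θ j
        have h2 := hLlw (some ⟨i, 0⟩) θ j
        have h3 := lw_mul (hug i) (hLg (some ⟨i, 0⟩)) j θ
        rw [humul i] at h3
        have h4 : lw (u i) j θ = lw (fun θ => lc θ (some ⟨i, (k i).succ⟩)) j θ -
            lw (fun θ => lc θ (some ⟨i, 0⟩)) j θ := by
          rw [eq_sub_iff_add_eq]
          exact h3.symm
        have e2 : lw (fun θ => lc θ (some ⟨i, (k i).succ⟩)) j θ -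
            lw (fun θ => lc θ (some ⟨i, 0⟩)) j θ - 2 * Real.pi * Complex.I *
            (((P k i j : ℝ) - (Q' i j : ℝ) : ℝ) : ℂ) =
            (lw (fun θ => lc θ (some ⟨i, (k i).succ⟩)) j θ - 2 * Real.pi * Complex.I *
              (mu (some ⟨i, (k i).succ⟩) j : ℂ)) -
            (lw (fun θ => lc θ (some ⟨i, 0⟩)) j θ - 2 * Real.pi * Complex.I *
              (mu (some ⟨i, 0⟩) j : ℂ)) := by
          push_cast
          ring
        rw [h4, e2]
        refine (norm_sub_le _ _).trans ?_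
        linarith
      · rw [hgr, bmat_right, Fin.cons_succ, lw_const, Pi.zero_apply, Complex.ofReal_zero,
          mul_zero, sub_zero, norm_zero]
        positivity)
  rw [hdet] at hmain
  have hcb : pairing (bfun A σ X k) / Real.log 2 = pairing g / t := by
    have h1 := pairing_const u ((Real.exp t : ℝ) : ℂ)
    rw [hnorm] at h1
    rw [div_eq_div_iff hlog2.ne' htpos.ne', mul_comm _ t]
    exact h1.symm
  rw [hcb]
  exact hmain

end base

end Pool.Agent.L7h9.SU
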