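import Pool.Agent.L7h9.SU.Tor2
set_option autoImplicit false

/-!
The regulators of the suspensions of classes, all tori together.
-/

namespace Pool.Agent.L7h9.SU

open Pool.Agent.TH826.MK

open Pool.Agent.N65.TL

open Pool.Agent.L7h9.LT (lval lder)

section classes

variable {A : Type*} [CommRing A] {n : ℕ}

theorem exists_repr (β : KQ A n) :
    ∃ x : (Fin n → Aˣ) →₀ ℚ, β = ∑ a ∈ x.support, x a • symb a := by
  obtain ⟨x, rfl⟩ := Submodule.mkQ_surjective _ β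
  refine ⟨x, ?_⟩
  conv_lhs => rw [← Finsupp.sum_single x, Finsupp.sum]
  rw [map_sum]
  refine Finset.sum_congr rfl fun a _ => ?_
  have h : (Finsupp.single a (x a) : (Fin n → Aˣ) →₀ ℚ) = x a • Finsupp.single a 1 := by
    rw [Finsupp.smul_single, smul_eq_mul, mul_one]
  rw [h, map_smul]
  rfl

end classes

variable {K A : Type*} [Field K] [CharZero K] [CommRing A] {s n : ℕ} {W : LP K (s + 1)}

/-- The estimate for finitely many classes. -/
theorem exists_torusC (σ : K →+* ℂ) (ι : K →+* A) (f : Aˣ) (γ : Torus A n)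
    (hγ : ∀ θ x, γ.e θ (ι x) = σ x) {al v : Fin (s + 1) → ℤ} (hv : W.coeff v ≠ 0)
    (hpos : 0 < dot al v) (hmax : ∀ m, W.coeff m ≠ 0 → m ≠ v → dot al m < dot al v)
    (i0 : Fin (s + 1)) {κ : Type*} [Fintype κ] (β : κ → KQ A n) {ε : ℝ} (hε : 0 < ε) :
    ∃ Λ0 : ℝ, 1 < Λ0 ∧ ∀ lam : K, Λ0 ≤ ‖σ lam‖ →
      ∃ Γ : Torus (SRing ι W (ι lam * f)) (n + s),
        (∀ θ x, Γ.e θ (sbase ι W (ι lam * f) (ι x)) = σ x) ∧
        (∀ θ, ∃ i, lder σ W (fun j => Γ.e θ (sz ι W (ι lam * f) j : SRing ι W (ι lam * f))) i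
          ≠ 0) ∧
        ∀ k, |Γ.reg (cat (sbase ι W (ι lam * f)) (sz ι W (ι lam * f)) (β k)) /
            Real.log ‖σ lam‖ -
          cst n s (dot al v).toNat * (zmat al v i0).det * γ.reg (byTwo ι (β k))| ≤ ε := by
  classical
  choose x hx using fun k => exists_repr (β k)
  set S : ℝ := ∑ k, ∑ a ∈ (x k).support, |((x k a : ℚ) : ℝ)| with hS
  have hS0 : 0 ≤ S := Finset.sum_nonneg fun k _ => Finset.sum_nonneg fun a _ => abs_nonneg _
  have hε' : 0 < ε / (1 + S) := div_pos hε (by linarith)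
  obtain ⟨Λ0, hΛ1, hΛ⟩ := exists_torusS (W := W) σ ι f γ hγ hv hpos hmax i0
    (κ := Σ k, (x k).support) (fun p => (p.2 : Fin n → Aˣ)) hε'
  refine ⟨Λ0, hΛ1, fun lam hlam => ?_⟩
  obtain ⟨Γ, h1, h2, h3⟩ := hΛ lam hlam
  refine ⟨Γ, h1, h2, fun k => ?_⟩
  set D : ℝ := cst n s (dot al v).toNat * (zmat al v i0).det with hD
  set t : ℝ := Real.log ‖σ lam‖ with ht
  have e1 : Γ.reg (cat (sbase ι W (ι lam * f)) (sz ι W (ι lam * f)) (β k)) =
      ∑ a ∈ (x k).support, ((x k a : ℚ) : ℝ) *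
        Γ.reg (cat (sbase ι W (ι lam * f)) (sz ι W (ι lam * f)) (symb a)) := by
    conv_lhs => rw [hx k]
    rw [map_sum, map_sum]
    refine Finset.sum_congr rfl fun a _ => ?_
    rw [map_smul, map_smul, Rat.smul_def]
  have e2 : γ.reg (byTwo ι (β k)) =
      ∑ a ∈ (x k).support, ((x k a : ℚ) : ℝ) * γ.reg (byTwo ι (symb a)) := by
    conv_lhs => rw [hx k]
    rw [map_sum, map_sum]
    refine Finset.sum_congr rfl fun a _ => ?_
    rw [map_smul, map_smul, Rat.smul_def]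
  have e3 : Γ.reg (cat (sbase ι W (ι lam * f)) (sz ι W (ι lam * f)) (β k)) / t -
      D * γ.reg (byTwo ι (β k)) =
      ∑ a ∈ (x k).support, ((x k a : ℚ) : ℝ) *
        (Γ.reg (cat (sbase ι W (ι lam * f)) (sz ι W (ι lam * f)) (symb a)) / t -
          D * γ.reg (byTwo ι (symb a))) := by
    rw [e1, e2, Finset.sum_div, Finset.mul_sum, ← Finset.sum_sub_distrib]
    exact Finset.sum_congr rfl fun a _ => by ring
  rw [e3]
  calc |∑ a ∈ (x k).support, ((x k a : ℚ) : ℝ) *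
        (Γ.reg (cat (sbase ι W (ι lam * f)) (sz ι W (ι lam * f)) (symb a)) / t -
          D * γ.reg (byTwo ι (symb a)))|
      ≤ ∑ a ∈ (x k).support, |((x k a : ℚ) : ℝ) *
        (Γ.reg (cat (sbase ι W (ι lam * f)) (sz ι W (ι lam * f)) (symb a)) / t -
          D * γ.reg (byTwo ι (symb a)))| := Finset.abs_sum_le_sum_abs _ _
    _ ≤ ∑ a ∈ (x k).support, |((x k a : ℚ) : ℝ)| * (ε / (1 + S)) := by
        refine Finset.sum_le_sum fun a ha => ?_
        rw [abs_mul]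
        exact mul_le_mul_of_nonneg_left (h3 ⟨k, ⟨a, ha⟩⟩) (abs_nonneg _)
    _ = (∑ a ∈ (x k).support, |((x k a : ℚ) : ℝ)|) * (ε / (1 + S)) := by
        rw [Finset.sum_mul]
    _ ≤ S * (ε / (1 + S)) := by
        refine mul_le_mul_of_nonneg_right ?_ hε'.le
        exact Finset.single_le_sum (f := fun k => ∑ a ∈ (x k).support, |((x k a : ℚ) : ℝ)|)
          (fun k _ => Finset.sum_nonneg fun a _ => abs_nonneg _) (Finset.mem_univ k)
    _ ≤ ε := by
        rw [mul_div_assoc', div_le_iff₀ (by linarith)]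
        nlinarith

theorem cst_ne_zero {k : ℕ} (hk : 0 < k) : cst n s k ≠ 0 := by
  have h1 : ∀ s', (sg n s' : ℝ) ≠ 0 := fun s' h => by
    have := sg_mul_self n s'
    rw [h] at this
    norm_num at this
  have h2 : (k : ℝ) ≠ 0 := by exact_mod_cast hk.ne'
  have h3 : Real.log 2 ≠ 0 := (Real.log_pos (by norm_num)).ne'
  have h4 : (2 * Real.pi) ≠ 0 := by have := Real.pi_pos; positivity
  unfold cst
  exact div_ne_zero (mul_ne_zero (mul_ne_zero (mul_ne_zero (h1 _) (h1 _)) (pow_ne_zero _ h2))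
    (pow_ne_zero _ h4)) h3

/-- All tori together. -/
theorem exists_toriS (σ : K →+* ℂ) (hW : Interior W) (ι : K →+* A) (f : Aˣ) {κ : Type*}
    [Fintype κ] [DecidableEq κ] (γ : κ → Torus A n) (hγ : ∀ t θ x, (γ t).e θ (ι x) = σ x)
    (β : κ → KQ A n) (hdet : (Matrix.of fun t k => (γ t).reg (byTwo ι (β k))).det ≠ 0) :
    ∃ C : ℝ, 1 ≤ C ∧ ∀ lam : K, C ≤ ‖σ lam‖ →
      ∃ Γ : κ → Torus (SRing ι W (ι lam * f)) (n + s),
        (∀ t θ x, (Γ t).e θ (sbase ι W (ι lam * f) (ι x)) = σ x) ∧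
        (∀ t θ, ∃ i, lder σ W
          (fun j => (Γ t).e θ (sz ι W (ι lam * f) j : SRing ι W (ι lam * f))) i ≠ 0) ∧
        (Matrix.of fun t k => (Γ t).reg
          (cat (sbase ι W (ι lam * f)) (sz ι W (ι lam * f)) (β k))).det ≠ 0 := by
  classical
  obtain ⟨al, v, hv, hpos, hmax⟩ := exists_vertex hW
  obtain ⟨i0, hi0⟩ : ∃ i0, v i0 ≠ 0 := by
    by_contra hcon
    push Not at hcon
    have h1 : dot al v = 0 := Finset.sum_eq_zero fun i _ => by rw [hcon i, mul_zero]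
    omega
  set k0 : ℕ := (dot al v).toNat with hk0
  have hk0pos : 0 < k0 := by omega
  set D : ℝ := cst n s k0 * (zmat al v i0).det with hD
  have hD0 : D ≠ 0 := mul_ne_zero (cst_ne_zero hk0pos) (det_zmat hpos hi0)
  have hdet' : (D • Matrix.of fun t k => (γ t).reg (byTwo ι (β k))).det ≠ 0 := by
    rw [Matrix.det_smul]
    exact mul_ne_zero (pow_ne_zero _ hD0) hdet
  obtain ⟨δ, hδ, hnear⟩ := Pool.Agent.TH826.SX.det_ne_zero_near _ hdet'
  choose Λ hΛ1 hΛ using fun t : κ =>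
    exists_torusC (W := W) σ ι f (γ t) (hγ t) hv hpos hmax i0 β (ε := δ / 2) (by linarith)
  have hsum : 0 ≤ ∑ c, |Λ c| := Finset.sum_nonneg fun _ _ => abs_nonneg _
  refine ⟨2 + ∑ c, |Λ c|, by linarith, fun lam hlam => ?_⟩
  have hle : ∀ c, Λ c ≤ ‖σ lam‖ := fun c => by
    have h1 := Finset.single_le_sum (f := fun c => |Λ c|) (fun _ _ => abs_nonneg _)
      (Finset.mem_univ c)
    have h2 := le_abs_self (Λ c)
    linarith
  have hlog : 0 < Real.log ‖σ lam‖ := Real.log_pos (by linarith)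
  choose Γ hΓσ hΓd hΓ using fun c => hΛ c lam (hle c)
  refine ⟨Γ, hΓσ, hΓd, ?_⟩
  have h1 := hnear (Matrix.of fun t k =>
    (Γ t).reg (cat (sbase ι W (ι lam * f)) (sz ι W (ι lam * f)) (β k)) / Real.log ‖σ lam‖)
    (fun t k => by
      have h2 := hΓ t k
      rw [Matrix.of_apply, Matrix.smul_apply, Matrix.of_apply, smul_eq_mul]
      exact lt_of_le_of_lt h2 (by linarith))
  intro h0
  apply h1
  have h4 : (Matrix.of fun t k =>
      (Γ t).reg (cat (sbase ι W (ι lam * f)) (sz ι W (ι lam * f)) (β k)) / Real.log ‖σ lam‖) =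
      (Real.log ‖σ lam‖)⁻¹ • Matrix.of fun t k =>
        (Γ t).reg (cat (sbase ι W (ι lam * f)) (sz ι W (ι lam * f)) (β k)) := by
    ext t k
    rw [Matrix.smul_apply, Matrix.of_apply, Matrix.of_apply, smul_eq_mul, div_eq_inv_mul]
  rw [h4, Matrix.det_smul, h0, mul_zero]

end Pool.Agent.L7h9.SU
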