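import Mathlib
set_option autoImplicit false

/-!
Roots of a monic polynomial whose coefficients are functions on a Euclidean space, without multiple
roots at any point: every root at one point extends to a continuous root, the continuous roots are
as smooth as the coefficients, and for periodic coefficients they are periodic with respect to a
multiple of the periods.
-/

namespace Pool.Agent.L7h9.SU

open Topology Set

section phi

variable {m : ℕ}

/-- the value of the monic polynomial -/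
noncomputable def pval (c : Fin m → ℂ) (y : ℂ) : ℂ := y ^ m + ∑ i, c i * y ^ (i : ℕ)

/-- the value of the derivative -/
noncomputable def dval (c : Fin m → ℂ) (y : ℂ) : ℂ :=
  m * y ^ (m - 1) + ∑ i, c i * ((i : ℕ) * y ^ ((i : ℕ) - 1))

/-- the map `(c, y) ↦ (c, P_c(y))` -/
noncomputable def phi (q : (Fin m → ℂ) × ℂ) : (Fin m → ℂ) × ℂ := (q.1, pval q.1 q.2)

theorem contDiff_pval : ContDiff ℂ 2 fun q : (Fin m → ℂ) × ℂ => pval q.1 q.2 := by
  unfold pval
  refine (contDiff_snd.pow m).add (ContDiff.sum fun i _ => ContDiff.mul ?_ (contDiff_snd.pow _))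
  exact (contDiff_apply ℂ ℂ i).comp contDiff_fst

theorem contDiff_phi : ContDiff ℂ 2 (phi (m := m)) := contDiff_fst.prodMk contDiff_pval

/-- the derivative of `pval` -/
theorem hasFDerivAt_pval (q : (Fin m → ℂ) × ℂ) : ∃ L : ((Fin m → ℂ) × ℂ) →L[ℂ] ℂ,
    HasFDerivAt (fun q : (Fin m → ℂ) × ℂ => pval q.1 q.2) L q ∧
      ∀ y, L (0, y) = dval q.1 q.2 * y := by
  have h1 : HasFDerivAt (fun q : (Fin m → ℂ) × ℂ => q.2) (ContinuousLinearMap.snd ℂ _ ℂ) q :=
    hasFDerivAt_snd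
  have h2 : ∀ i, HasFDerivAt (fun q : (Fin m → ℂ) × ℂ => q.1 i)
      ((ContinuousLinearMap.proj i).comp (ContinuousLinearMap.fst ℂ (Fin m → ℂ) ℂ)) q := fun i =>
    ((ContinuousLinearMap.proj (R := ℂ) (φ := fun _ : Fin m => ℂ) i).comp
      (ContinuousLinearMap.fst ℂ (Fin m → ℂ) ℂ)).hasFDerivAt
  have h3 := (h1.pow m).add (HasFDerivAt.fun_sum (u := Finset.univ) fun i _ =>
    (h2 i).mul (h1.pow (i : ℕ)))
  refine ⟨_, h3, fun y => ?_⟩
  simp only [add_apply, smul_apply, smul_eq_mul, nsmul_eq_mul, sum_apply,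
    ContinuousLinearMap.coe_snd', ContinuousLinearMap.comp_apply, ContinuousLinearMap.coe_fst',
    ContinuousLinearMap.proj_apply, Pi.zero_apply, mul_zero, add_zero]
  unfold dval
  rw [add_mul, Finset.sum_mul]
  congr 1
  exact Finset.sum_congr rfl fun i _ => by ring

theorem exists_equiv {q : (Fin m → ℂ) × ℂ} (hq : dval q.1 q.2 ≠ 0) :
    ∃ L : ((Fin m → ℂ) × ℂ) ≃L[ℂ] ((Fin m → ℂ) × ℂ),
      HasFDerivAt (phi (m := m)) (L : ((Fin m → ℂ) × ℂ) →L[ℂ] ((Fin m → ℂ) × ℂ)) q := by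
  obtain ⟨L, hL, hLy⟩ := hasFDerivAt_pval q
  have h1 : HasFDerivAt (phi (m := m)) ((ContinuousLinearMap.fst ℂ _ ℂ).prod L) q :=
    hasFDerivAt_fst.prodMk hL
  have hinj : Function.Injective
      (((ContinuousLinearMap.fst ℂ (Fin m → ℂ) ℂ).prod L : _ →L[ℂ] _) :
        ((Fin m → ℂ) × ℂ) →ₗ[ℂ] ((Fin m → ℂ) × ℂ)) := by
    rw [← LinearMap.ker_eq_bot, LinearMap.ker_eq_bot']
    rintro ⟨a, b⟩ h
    have h2 : a = 0 := congrArg Prod.fst h
    subst h2
    have h3 : L (0, b) = 0 := congrArg Prod.snd h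
    rw [hLy] at h3
    rcases mul_eq_zero.1 h3 with h4 | h4
    · exact absurd h4 hq
    · rw [h4]
      rfl
  refine ⟨(LinearEquiv.ofInjectiveEndo _ hinj).toContinuousLinearEquiv, ?_⟩
  convert! h1 using 1

theorem exists_homeo {q : (Fin m → ℂ) × ℂ} (hq : dval q.1 q.2 ≠ 0) :
    ∃ e : OpenPartialHomeomorph ((Fin m → ℂ) × ℂ) ((Fin m → ℂ) × ℂ),
      q ∈ e.source ∧ (e : _ → _) = phi ∧ ContDiffAt ℂ 2 e.symm (phi q) := by
  obtain ⟨L, hL⟩ := exists_equiv hq
  have hc : ContDiffAt ℂ 2 (phi (m := m)) q := contDiff_phi.contDiffAt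
  have hs := hc.mem_toOpenPartialHomeomorph_source hL (by norm_num)
  refine ⟨hc.toOpenPartialHomeomorph phi hL (by norm_num), hs,
    hc.toOpenPartialHomeomorph_coe hL (by norm_num), ?_⟩
  exact hc.to_localInverse hL (by norm_num)

theorem bound_root {c : Fin m → ℂ} {y : ℂ} {B : ℝ} (hc : ∀ i, ‖c i‖ ≤ B)
    (hw : ‖pval c y‖ ≤ B) (hm : 0 < m) : ‖y‖ ≤ 1 + B * (m + 1) := by
  have hB : 0 ≤ B := (norm_nonneg _).trans hw
  by_contra hcon
  push Not at hcon
  have hy1 : 1 ≤ ‖y‖ := by nlinarith [mul_nonneg hB (by positivity : (0 : ℝ) ≤ m + 1)]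
  have h1 : y ^ m = pval c y - ∑ i, c i * y ^ (i : ℕ) := by
    unfold pval
    ring
  have h2 : ‖y‖ ^ m ≤ B + ∑ i : Fin m, B * ‖y‖ ^ (m - 1) := by
    rw [← norm_pow, h1]
    refine (norm_sub_le _ _).trans (add_le_add hw ((norm_sum_le _ _).trans ?_))
    refine Finset.sum_le_sum fun i _ => ?_
    rw [norm_mul, norm_pow]
    exact mul_le_mul (hc i) (pow_le_pow_right₀ hy1 (by omega)) (by positivity) hB
  rw [Finset.sum_const, Finset.card_univ, Fintype.card_fin, nsmul_eq_mul] at h2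
  have h3 : 1 ≤ ‖y‖ ^ (m - 1) := one_le_pow₀ hy1
  have h4 : ‖y‖ ^ m = ‖y‖ * ‖y‖ ^ (m - 1) := by
    rw [← pow_succ']
    congr 1
    omega
  have h5 : B ≤ B * ‖y‖ ^ (m - 1) := le_mul_of_one_le_right hB h3
  have h6 : ‖y‖ * ‖y‖ ^ (m - 1) ≤ (B * (m + 1)) * ‖y‖ ^ (m - 1) := by
    rw [← h4]
    nlinarith
  have h7 := le_of_mul_le_mul_right h6 (by linarith)
  linarith

theorem isProperMap_phi (hm : 0 < m) : IsProperMap (phi (m := m)) := by
  rw [isProperMap_iff_isCompact_preimage]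
  refine ⟨contDiff_phi.continuous, fun k hk => ?_⟩
  obtain ⟨B, hB⟩ := hk.isBounded.exists_norm_le
  refine Metric.isCompact_of_isClosed_isBounded (hk.isClosed.preimage contDiff_phi.continuous) ?_
  refine (Metric.isBounded_closedBall (x := (0 : (Fin m → ℂ) × ℂ))
    (r := max B (1 + B * (m + 1)))).subset ?_
  rintro q hq
  have h1 := hB _ hq
  have h2 : ‖q.1‖ ≤ B := (norm_fst_le (phi q)).trans h1
  have h3 : ‖pval q.1 q.2‖ ≤ B := (norm_snd_le (phi q)).trans h1
  rw [mem_closedBall_zero_iff, Prod.norm_def]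
  exact max_le_max h2 (bound_root (fun i => (norm_le_pi_norm _ i).trans h2) h3 hm)

theorem finite_fiber (hm : 0 < m) (x : (Fin m → ℂ) × ℂ) : (phi (m := m) ⁻¹' {x}).Finite := by
  classical
  set P : Polynomial ℂ := Polynomial.X ^ m + (∑ i : Fin m,
    Polynomial.C (x.1 i) * Polynomial.X ^ (i : ℕ)) - Polynomial.C x.2 with hP
  have hev : ∀ y, P.eval y = pval x.1 y - x.2 := by
    intro y
    rw [hP]
    simp [pval, Polynomial.eval_finsetSum]
  have hPne : P ≠ 0 := by
    intro h0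
    have h1 : P.coeff m = 1 := by
      rw [hP, Polynomial.coeff_sub, Polynomial.coeff_add, Polynomial.coeff_X_pow_self,
        Polynomial.finsetSum_coeff, Polynomial.coeff_C_of_ne_zero (by omega)]
      rw [Finset.sum_eq_zero, add_zero, sub_zero]
      intro i _
      rw [Polynomial.coeff_C_mul, Polynomial.coeff_X_pow, if_neg (by omega), mul_zero]
    rw [h0, Polynomial.coeff_zero] at h1
    exact zero_ne_one h1
  refine ((P.roots.toFinset.finite_toSet).image fun y => (x.1, y)).subset ?_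
  rintro q hq
  have h1 : phi q = x := hq
  have h2 : (phi q).1 = x.1 := by rw [h1]
  have h2' : q.1 = x.1 := h2
  have h3' : (phi q).2 = x.2 := by rw [h1]
  have h3 : pval q.1 q.2 = x.2 := h3'
  refine ⟨q.2, ?_, Prod.ext h2'.symm rfl⟩
  rw [Finset.mem_coe, Multiset.mem_toFinset, Polynomial.mem_roots hPne, Polynomial.IsRoot, hev,
    ← h2', h3, sub_self]

/-- the regular values -/
def regv (m : ℕ) : Set ((Fin m → ℂ) × ℂ) := {x | ∀ y, pval x.1 y = x.2 → dval x.1 y ≠ 0}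

theorem isCoveringMapOn_phi (hm : 0 < m) : IsCoveringMapOn (phi (m := m)) (regv m) := by
  refine (isProperMap_phi hm).isClosedMap.isCoveringMapOn_of_isLocalHomeomorphOn
    (fun x _ => finite_fiber hm x) fun q hq => ?_
  obtain ⟨e, he, heq, -⟩ := exists_homeo (q := q) (hq q.2 rfl)
  exact ⟨e, he, heq.symm⟩

end phi

section lift

variable {d m : ℕ}

theorem exists_lift (hm : 0 < m) {c : (Fin d → ℝ) → Fin m → ℂ} (hc : Continuous c)
    (hreg : ∀ θ y, pval (c θ) y = 0 → dval (c θ) y ≠ 0) (θ₀ : Fin d → ℝ) {y₀ : ℂ}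
    (hy₀ : pval (c θ₀) y₀ = 0) :
    ∃ y : (Fin d → ℝ) → ℂ, Continuous y ∧ y θ₀ = y₀ ∧ ∀ θ, pval (c θ) (y θ) = 0 := by
  have hf : Continuous fun θ => ((c θ, 0) : (Fin m → ℂ) × ℂ) := hc.prodMk continuous_const
  obtain ⟨F, ⟨h1, h2⟩, -⟩ := (isCoveringMapOn_phi hm).existsUnique_continuousMap_lifts
    (⟨_, hf⟩ : C(Fin d → ℝ, (Fin m → ℂ) × ℂ)) (a₀ := θ₀) (e₀ := (c θ₀, y₀))
    (by simp [phi, hy₀]) (fun θ => by
      intro y hy
      exact hreg θ y hy)
  have h3 : ∀ θ, phi (F θ) = (c θ, 0) := fun θ => congrFun h2 θ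
  have h4 : ∀ θ, (F θ).1 = c θ := fun θ => congrArg Prod.fst (h3 θ)
  refine ⟨fun θ => (F θ).2, continuous_snd.comp F.continuous, by
    show (F θ₀).2 = y₀
    rw [h1], fun θ => ?_⟩
  have h5 : pval (F θ).1 (F θ).2 = 0 := congrArg Prod.snd (h3 θ)
  rw [h4] at h5
  exact h5

theorem smooth_lift {c : (Fin d → ℝ) → Fin m → ℂ} (hc : ContDiff ℝ 2 c)
    (hreg : ∀ θ y, pval (c θ) y = 0 → dval (c θ) y ≠ 0) {y : (Fin d → ℝ) → ℂ}
    (hy : Continuous y) (hroot : ∀ θ, pval (c θ) (y θ) = 0) : ContDiff ℝ 2 y := by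
  rw [contDiff_iff_contDiffAt]
  intro θ
  obtain ⟨e, he, heq, hs⟩ := exists_homeo (q := (c θ, y θ)) (hreg θ _ (hroot θ))
  have h1 : ∀ᶠ θ' in 𝓝 θ, (c θ', y θ') ∈ e.source :=
    (hc.continuous.prodMk hy).continuousAt.eventually_mem (e.open_source.mem_nhds he)
  have h2 : ∀ᶠ θ' in 𝓝 θ, y θ' = (e.symm (c θ', 0)).2 := by
    filter_upwards [h1] with θ' hθ'
    have h3 : e (c θ', y θ') = (c θ', 0) := by
      rw [heq]
      simp [phi, hroot]
    rw [← h3, e.left_inv hθ']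
  have h4 : phi (c θ, y θ) = (c θ, 0) := by simp [phi, hroot]
  rw [h4] at hs
  have h5 : ContDiffAt ℝ 2 (fun θ' => (e.symm (c θ', 0)).2) θ := by
    refine contDiffAt_snd.comp θ ?_
    exact (hs.restrict_scalars ℝ).comp θ (hc.contDiffAt.prodMk contDiffAt_const)
  exact h5.congr_of_eventuallyEq h2

/-- two continuous roots which agree at a point agree -/
theorem unique_lift (hm : 0 < m) {c : (Fin d → ℝ) → Fin m → ℂ}
    (hreg : ∀ θ y, pval (c θ) y = 0 → dval (c θ) y ≠ 0) (hc : Continuous c)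
    {y y' : (Fin d → ℝ) → ℂ} (hy : Continuous y) (hy' : Continuous y')
    (hroot : ∀ θ, pval (c θ) (y θ) = 0) (hroot' : ∀ θ, pval (c θ) (y' θ) = 0) {θ₀ : Fin d → ℝ}
    (h0 : y θ₀ = y' θ₀) : y = y' := by
  have hf : Continuous fun θ => ((c θ, 0) : (Fin m → ℂ) × ℂ) := hc.prodMk continuous_const
  obtain ⟨F, -, h2⟩ := (isCoveringMapOn_phi hm).existsUnique_continuousMap_lifts
    (⟨_, hf⟩ : C(Fin d → ℝ, (Fin m → ℂ) × ℂ)) (a₀ := θ₀) (e₀ := (c θ₀, y θ₀))
    (by simp [phi, hroot]) (fun θ => by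
      intro y hy
      exact hreg θ y hy)
  have h3 := h2 ⟨fun θ => (c θ, y θ), hc.prodMk hy⟩ ⟨rfl, by
    funext θ
    simp [phi, hroot]⟩
  have h4 := h2 ⟨fun θ => (c θ, y' θ), hc.prodMk hy'⟩ ⟨by simp [h0], by
    funext θ
    simp [phi, hroot']⟩
  funext θ
  have h5 := h3.trans h4.symm
  have h6 := DFunLike.congr_fun h5 θ
  exact congrArg Prod.snd h6

/-- With periodic coefficients: a root which is smooth and periodic after multiplication of the
variables with an integer. -/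
theorem exists_periodic_root (hm : 0 < m) {c : (Fin d → ℝ) → Fin m → ℂ} (hc : ContDiff ℝ 2 c)
    (hper : ∀ θ i, c (θ + Pi.single i 1) = c θ)
    (hreg : ∀ θ y, pval (c θ) y = 0 → dval (c θ) y ≠ 0) :
    ∃ (N : ℕ) (y : (Fin d → ℝ) → ℂ), 0 < N ∧ ContDiff ℝ 2 y ∧
      (∀ θ i, y (θ + Pi.single i 1) = y θ) ∧ ∀ θ, pval (c ((N : ℝ) • θ)) (y θ) = 0 := by
  classical
  -- the set of the continuous roots
  set Y := {y : (Fin d → ℝ) → ℂ // Continuous y ∧ ∀ θ, pval (c θ) (y θ) = 0} with hY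
  have hfin : Finite Y := by
    have hF := finite_fiber (m := m) hm (c 0, 0)
    have : Finite (phi (m := m) ⁻¹' {(c 0, 0)}) := hF
    refine Finite.of_injective (β := (phi (m := m) ⁻¹' {(c 0, 0)}))
      (fun y : Y => ⟨(c 0, y.1 0), by
        rw [Set.mem_preimage, Set.mem_singleton_iff]
        simp [phi, y.2.2 0]⟩) ?_
    intro y y' h
    have h1 : (c 0, y.1 0) = (c 0, y'.1 0) := congrArg Subtype.val h
    have h2 : y.1 0 = y'.1 0 := congrArg Prod.snd h1
    exact Subtype.ext (unique_lift hm hreg hc.continuous y.2.1 y'.2.1 y.2.2 y'.2.2 h2)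
  -- a root
  obtain ⟨y₀, hy₀⟩ : ∃ y₀, pval (c 0) y₀ = 0 := by
    set P : Polynomial ℂ := Polynomial.X ^ m + (∑ i : Fin m,
      Polynomial.C (c 0 i) * Polynomial.X ^ (i : ℕ)) with hP
    have hdeg : P.degree ≠ 0 := by
      have h1 : (∑ i : Fin m, Polynomial.C (c 0 i) * Polynomial.X ^ (i : ℕ)).degree <
          (m : WithBot ℕ) := Polynomial.degree_sum_fin_lt _
      have h2 : P.degree = m := by
        rw [hP, Polynomial.degree_add_eq_left_of_degree_lt, Polynomial.degree_X_pow]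
        rwa [Polynomial.degree_X_pow]
      rw [h2]
      exact_mod_cast hm.ne'
    obtain ⟨y₀, h⟩ := IsAlgClosed.exists_root P hdeg
    refine ⟨y₀, ?_⟩
    rw [Polynomial.IsRoot, hP] at h
    simpa [pval, Polynomial.eval_finsetSum] using h
  obtain ⟨y, hyc, -, hyr⟩ := exists_lift hm hc.continuous hreg 0 hy₀
  -- the shifts
  have hcz : ∀ i (θ : Fin d → ℝ), c (θ - Pi.single i 1) = c θ := fun i θ => by
    have := hper (θ - Pi.single i 1) i
    rw [sub_add_cancel] at this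
    exact this.symm
  set τ : Fin d → Equiv.Perm Y := fun i =>
    { toFun := fun y => ⟨fun θ => y.1 (θ + Pi.single i 1),
        y.2.1.comp (continuous_id.add continuous_const), fun θ => by
          have := y.2.2 (θ + Pi.single i 1)
          rwa [hper] at this⟩
      invFun := fun y => ⟨fun θ => y.1 (θ - Pi.single i 1),
        y.2.1.comp (continuous_id.sub continuous_const), fun θ => by
          have := y.2.2 (θ - Pi.single i 1)
          rwa [hcz] at this⟩
      left_inv := fun y => Subtype.ext (funext fun θ => by simp)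
      right_inv := fun y => Subtype.ext (funext fun θ => by simp) } with hτ
  have hpow : ∀ i (k : ℕ) (y : Y) θ, ((τ i ^ k) y).1 θ = y.1 (θ + k • Pi.single i 1) := by
    intro i k
    induction k with
    | zero => intro y θ; simp
    | succ k ih =>
      intro y θ
      rw [pow_succ, Equiv.Perm.mul_apply, ih]
      show y.1 (θ + k • Pi.single i 1 + Pi.single i 1) = _
      rw [succ_nsmul, add_assoc]
  have : Fintype Y := Fintype.ofFinite Y
  set N : ℕ := Fintype.card (Equiv.Perm Y) with hN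
  have hNpos : 0 < N := Fintype.card_pos
  have hyN : ∀ θ i, y (θ + (N : ℝ) • Pi.single i 1) = y θ := by
    intro θ i
    have h1 := hpow i N ⟨y, hyc, hyr⟩ θ
    have h2 : τ i ^ N = 1 := pow_card_eq_one
    rw [h2] at h1
    have h3 : ((N : ℝ) • Pi.single i 1 : Fin d → ℝ) = N • Pi.single i 1 :=
      Nat.cast_smul_eq_nsmul ℝ N _
    rw [h3]
    exact h1.symm
  have hys := smooth_lift hc hreg hyc hyr
  refine ⟨N, fun θ => y ((N : ℝ) • θ), hNpos, ?_, fun θ i => ?_, fun θ => hyr _⟩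
  · exact hys.comp (contDiff_const_smul _)
  · show y ((N : ℝ) • (θ + Pi.single i 1)) = _
    rw [smul_add, hyN]

end lift

end Pool.Agent.L7h9.SU
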