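import Pool.Agent.L7h9.SU.Base
import Pool.Agent.L7h9.SU.Lift
import Pool.Agent.L7h9.SU.Fin
set_option autoImplicit false

/-!
Towers of graphs pulled back to a finite covering `p(x, y) = 0` of the affine space.
-/

namespace Pool.Agent.L7h9.SU

open scoped WithZero Polynomial

open Pool.Agent.TH826.MK

open Pool.Agent.Y797.TW (Tower fct val_le_one)

open Pool.Agent.N65.TL

section defs

variable {K : Type*} [Field K] {n : ℕ} (A : Tower K n) (p G : (MvPolynomial (Fin (n + 1)) K)[X])

/-- The function `Φ = G(x, y) g(x) ∏_j ∏_i (x_j - φ_{j,i}(x))` on the covering `p(x, y) = 0` of the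
affine space. -/
noncomputable def covPhi : AdjoinRoot p := AdjoinRoot.mk p G * AdjoinRoot.of p A.prod

/-- The function `Φ ∂p/∂y` on the covering. -/
noncomputable def cden : AdjoinRoot p :=
  covPhi A p G * AdjoinRoot.mk p (Polynomial.derivative p)

/-- The coordinate ring of the open part `Φ ≠ 0`, `∂p/∂y ≠ 0` of the covering. -/
def CovRing : Type _ := Localization.Away (cden A p G)

noncomputable instance : CommRing (CovRing A p G) :=
  show CommRing (Localization.Away (cden A p G)) from inferInstance

noncomputable instance : Algebra (AdjoinRoot p) (CovRing A p G) :=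
  show Algebra (AdjoinRoot p) (Localization.Away (cden A p G)) from inferInstance

instance : IsLocalization.Away (cden A p G) (CovRing A p G) :=
  show IsLocalization.Away (cden A p G) (Localization.Away (cden A p G)) from inferInstance

/-- The restriction of the functions on the covering to the open part. -/
noncomputable def covMap : AdjoinRoot p →+* CovRing A p G := algebraMap _ _

/-- The constants. -/
noncomputable def covConst : K →+* CovRing A p G :=
  (covMap A p G).comp ((AdjoinRoot.of p).comp MvPolynomial.C)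

theorem isUnit_of_dvd_cden {q : AdjoinRoot p} (h : q ∣ cden A p G) :
    IsUnit (covMap A p G q) :=
  isUnit_of_dvd_unit (map_dvd (covMap A p G) h)
    (IsLocalization.Away.algebraMap_isUnit (S := CovRing A p G) (cden A p G))

theorem covPhi_dvd : covPhi A p G ∣ cden A p G := Dvd.intro _ rfl

/-- The unit `Φ` of the open part. -/
noncomputable def covF : (CovRing A p G)ˣ := (isUnit_of_dvd_cden A p G (covPhi_dvd A p G)).unit

theorem fac_dvd_cden (j : Fin (n + 1)) (i : Fin (A.r j + 1)) :
    AdjoinRoot.of p (A.fac j i) ∣ cden A p G := by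
  refine Dvd.dvd.trans ?_ (covPhi_dvd A p G)
  unfold covPhi Tower.prod
  refine Dvd.dvd.mul_left (map_dvd _ (Dvd.dvd.mul_left ?_ _)) _
  exact (Finset.dvd_prod_of_mem (fun i => A.fac j i) (Finset.mem_univ i)).trans
    (Finset.dvd_prod_of_mem (fun j => ∏ i, A.fac j i) (Finset.mem_univ j))

/-- The unit `x_j - φ_{j,i}` of the open part. -/
noncomputable def covL (j : Fin (n + 1)) (i : Fin (A.r j + 1)) : (CovRing A p G)ˣ :=
  (isUnit_of_dvd_cden A p G (fac_dvd_cden A p G j i)).unit

/-- The unit `u_j = (x_j - φ_{j,k_j + 1}) / (x_j - φ_{j,0})` of the open part. -/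
noncomputable def covU (k : ∀ j, Fin (A.r j)) (j : Fin (n + 1)) : (CovRing A p G)ˣ :=
  covL A p G j (k j).succ / covL A p G j 0

end defs

section val

variable {K : Type*} [Field K] {n : ℕ} {A : Tower K n} {p G : (MvPolynomial (Fin (n + 1)) K)[X]}

theorem val_eval₂_le_one {R L : Type*} [CommRing R] [Field L] (F : R →+* L)
    (v : Valuation L ℤᵐ⁰) {Q : R[X]} {Y : L} (hQ : ∀ i, v (F (Q.coeff i)) ≤ 1) (hY : v Y ≤ 1) :
    v (Polynomial.eval₂ F Y Q) ≤ 1 := by
  rw [Polynomial.eval₂_eq_sum_range]
  refine Valuation.map_sum_le _ fun i _ => ?_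
  rw [map_mul, map_pow]
  exact mul_le_one' (hQ i) (pow_le_one' hY i)

theorem val_root_le_one {R L : Type*} [CommRing R] [Field L] (F : R →+* L)
    (v : Valuation L ℤᵐ⁰) {Q : R[X]} (hm : Q.Monic) {Y : L} (hQ : ∀ i, v (F (Q.coeff i)) ≤ 1)
    (hY : Polynomial.eval₂ F Y Q = 0) : v Y ≤ 1 := by
  by_contra hcon
  push Not at hcon
  rw [hm.as_sum, Polynomial.eval₂_add, Polynomial.eval₂_pow, Polynomial.eval₂_X,
    Polynomial.eval₂_finsetSum] at hY
  simp only [Polynomial.eval₂_mul, Polynomial.eval₂_C, Polynomial.eval₂_pow,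
    Polynomial.eval₂_X] at hY
  have hY0 : v Y ≠ 0 := (zero_lt_one.trans hcon).ne'
  have h1 : v (∑ i ∈ Finset.range Q.natDegree, F (Q.coeff i) * Y ^ i) < v Y ^ Q.natDegree := by
    refine Valuation.map_sum_lt _ (pow_ne_zero _ hY0) fun i hi => ?_
    rw [map_mul, map_pow]
    refine lt_of_le_of_lt (mul_le_of_le_one_left' (hQ i)) ?_
    exact pow_lt_pow_right₀ hcon (Finset.mem_range.1 hi)
  have h2 : Y ^ Q.natDegree = -∑ i ∈ Finset.range Q.natDegree, F (Q.coeff i) * Y ^ i :=
    eq_neg_of_add_eq_zero_left hY
  have h3 : v (Y ^ Q.natDegree) = v (∑ i ∈ Finset.range Q.natDegree, F (Q.coeff i) * Y ^ i) := by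
    rw [h2, Valuation.map_neg]
  rw [map_pow] at h3
  rw [← h3] at h1
  exact lt_irrefl _ h1

/-- The symbols are tempered with respect to `Φ`. -/
theorem cov_tempered.{u, v} {K : Type u} [Field K] {n : ℕ} {A : Tower K n}
    {p G : (MvPolynomial (Fin (n + 1)) K)[X]} (hG : A.Graphs) (hI : A.Integral) (hp : p.Monic)
    (hpI : ∀ i m, IsIntegral ℤ ((p.coeff i).coeff m))
    (hGI : ∀ i m, IsIntegral ℤ ((G.coeff i).coeff m)) (k : ∀ j, Fin (A.r j)) :
    Tempered.{u, v} (covF A p G) (symb (covU A p G k)) := by
  classical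
  intro L _ φ v _
  set ψ : AdjoinRoot p →+* L := φ.comp (covMap A p G) with hψ
  set F : MvPolynomial (Fin (n + 1)) K →+* L := ψ.comp (AdjoinRoot.of p) with hF
  set E : Fin (n + 1) → Lˣ := fun l => Units.map (φ : CovRing A p G →* L) (covU A p G k l)
    with hE
  have hEu : ∀ j, (E j : L) = F (A.fac j (k j).succ) / F (A.fac j 0) := by
    intro j
    simp only [hE]
    unfold covU
    rw [map_div, Units.val_div_eq_div_val]
    rfl
  have hne : ∀ j i, F (A.fac j i) ≠ 0 := fun j i =>
    (Units.map (φ : CovRing A p G →* L) (covL A p G j i)).ne_zero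
  rw [KQ.map_symb]
  change (v (φ (covF A p G)) = 1 → symb E ∈ unitPart v (n + 1)) ∧
    (1 < v (φ (covF A p G)) → symb E ∈ oneUnits v (n + 1))
  by_cases hB : ∃ j, 1 < v (F (MvPolynomial.X j))
  · have key : symb E ∈ oneUnits v (n + 1) := by
      have hnem : (Finset.univ.filter fun j : Fin (n + 1) =>
          1 < v (F (MvPolynomial.X j))).Nonempty := by
        obtain ⟨j, hj⟩ := hB
        exact ⟨j, Finset.mem_filter.2 ⟨Finset.mem_univ _, hj⟩⟩
      set j := (Finset.univ.filter fun j : Fin (n + 1) =>
        1 < v (F (MvPolynomial.X j))).max' hnem with hjdef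
      have hj : 1 < v (F (MvPolynomial.X j)) :=
        (Finset.mem_filter.1 (Finset.max'_mem _ hnem)).2
      have hlt : ∀ l, j < l → v (F (MvPolynomial.X l)) ≤ 1 := by
        intro l hl
        by_contra hcon
        refine absurd (Finset.le_max' _ l (Finset.mem_filter.2 ⟨Finset.mem_univ _, ?_⟩))
          (not_le.2 hl)
        exact not_le.1 hcon
      have hphi : ∀ i, v (F (A.phi j i)) ≤ 1 := fun i =>
        val_le_one F v (hI.1 j i) fun l hl => hlt l (hG.1 j i l hl)
      refine Submodule.subset_span ⟨E, j, ?_, rfl⟩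
      rw [hEu]
      have e1 : ∀ i, F (A.fac j i) = F (MvPolynomial.X j) - F (A.phi j i) := fun i => by
        rw [← map_sub]
        rfl
      rw [div_sub_one (hne j 0), map_div₀, e1, e1]
      have h1 : v (F (MvPolynomial.X j) - F (A.phi j 0)) = v (F (MvPolynomial.X j)) :=
        Valuation.map_sub_eq_of_lt_left v ((hphi 0).trans_lt hj)
      have h2 : v (F (MvPolynomial.X j) - F (A.phi j (k j).succ) -
          (F (MvPolynomial.X j) - F (A.phi j 0))) ≤ 1 := by
        have e : F (MvPolynomial.X j) - F (A.phi j (k j).succ) -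
            (F (MvPolynomial.X j) - F (A.phi j 0)) =
          F (A.phi j 0) - F (A.phi j (k j).succ) := by ring
        rw [e]
        exact (v.map_sub _ _).trans (max_le (hphi _) (hphi _))
      rw [h1]
      have h3 : 0 < v (F (MvPolynomial.X j)) := zero_lt_one.trans hj
      rw [div_lt_one₀ h3]
      exact h2.trans_lt hj
    exact ⟨fun _ => oneUnits_le v key, fun _ => key⟩
  · push Not at hB
    have hphi : ∀ j i, v (F (A.phi j i)) ≤ 1 := fun j i =>
      val_le_one F v (hI.1 j i) fun l _ => hB l
    have hg : v (F A.g) ≤ 1 := val_le_one F v hI.2 fun l _ => hB l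
    have hsub : ∀ j i, v (F (A.fac j i)) ≤ 1 := fun j i => by
      unfold Tower.fac
      rw [map_sub]
      exact (v.map_sub _ _).trans (max_le (hB j) (hphi j i))
    set Y : L := ψ (AdjoinRoot.root p) with hY
    have hroot : Polynomial.eval₂ F Y p = 0 := by
      rw [hF, hY, ← Polynomial.hom_eval₂, AdjoinRoot.eval₂_root, map_zero]
    have hY1 : v Y ≤ 1 := val_root_le_one F v hp
      (fun i => val_le_one F v (hpI i) fun l _ => hB l) hroot
    have hGv : v (ψ (AdjoinRoot.mk p G)) ≤ 1 := by
      have e : ψ (AdjoinRoot.mk p G) = Polynomial.eval₂ F Y G := by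
        rw [← AdjoinRoot.aeval_eq, Polynomial.aeval_def, Polynomial.hom_eval₂]
        rfl
      rw [e]
      exact val_eval₂_le_one F v (fun i => val_le_one F v (hGI i) fun l _ => hB l) hY1
    have hf : v (φ (covF A p G)) = v (ψ (AdjoinRoot.mk p G)) *
        (v (F A.g) * ∏ j, ∏ i, v (F (A.fac j i))) := by
      have e : φ (covF A p G) = ψ (AdjoinRoot.mk p G) * F A.prod := by
        have e1 : φ (covF A p G) = ψ (covPhi A p G) := rfl
        rw [e1]
        unfold covPhi
        rw [map_mul]
        rfl
      rw [e, map_mul]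
      unfold Tower.prod
      simp only [map_mul, map_prod]
    have hprodle : ∏ j, ∏ i, v (F (A.fac j i)) ≤ 1 :=
      Finset.prod_le_one' fun j _ => Finset.prod_le_one' fun i _ => hsub j i
    refine ⟨fun hone => ?_, fun h => ?_⟩
    · rw [hf] at hone
      have hL1 : ∀ j i, v (F (A.fac j i)) = 1 := by
        intro j i
        refine le_antisymm (hsub j i) ?_
        rw [← hone]
        rw [← Finset.mul_prod_erase _ _ (Finset.mem_univ j),
          ← Finset.mul_prod_erase _ _ (Finset.mem_univ i)]
        have h1 : ∏ x ∈ Finset.univ.erase i, v (F (A.fac j x)) ≤ 1 :=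
          Finset.prod_le_one' fun i _ => hsub j i
        have h2 : ∏ x ∈ Finset.univ.erase j, ∏ i, v (F (A.fac x i)) ≤ 1 :=
          Finset.prod_le_one' fun k _ => Finset.prod_le_one' fun i _ => hsub k i
        calc v (ψ (AdjoinRoot.mk p G)) * (v (F A.g) * (v (F (A.fac j i)) *
              (∏ x ∈ Finset.univ.erase i, v (F (A.fac j x))) *
              ∏ x ∈ Finset.univ.erase j, ∏ i, v (F (A.fac x i))))
            ≤ 1 * (1 * (v (F (A.fac j i)) * 1 * 1)) :=
              mul_le_mul' hGv (mul_le_mul' hg (mul_le_mul' (mul_le_mul' le_rfl h1) h2))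
          _ = v (F (A.fac j i)) := by rw [one_mul, one_mul, mul_one, mul_one]
      refine Submodule.subset_span ⟨E, fun j => ?_, rfl⟩
      rw [hEu, map_div₀, hL1, hL1, div_one]
    · refine absurd h (not_lt.2 ?_)
      rw [hf]
      exact mul_le_one' hGv (mul_le_one' hg hprodle)

end val

section clear

variable {R : Type*} [CommRing R] [IsDomain R]

/-- Clearing denominators in a Bézout identity. -/
theorem exists_bezout {p q : R[X]} (h : IsCoprime (p.map (algebraMap R (FractionRing R)))
    (q.map (algebraMap R (FractionRing R)))) :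
    ∃ (D : R) (a b : R[X]), D ≠ 0 ∧ a * p + b * q = Polynomial.C D := by
  obtain ⟨a, b, hab⟩ := h
  obtain ⟨d1, hd1, h1⟩ := IsLocalization.integerNormalization_spec (nonZeroDivisors R) a
  obtain ⟨d2, hd2, h2⟩ := IsLocalization.integerNormalization_spec (nonZeroDivisors R) b
  refine ⟨d1 * d2, Polynomial.C d2 * IsLocalization.integerNormalization (nonZeroDivisors R) a,
    Polynomial.C d1 * IsLocalization.integerNormalization (nonZeroDivisors R) b,
    mul_ne_zero (nonZeroDivisors.ne_zero hd1) (nonZeroDivisors.ne_zero hd2), ?_⟩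
  refine Polynomial.map_injective _ (IsFractionRing.injective R (FractionRing R)) ?_
  rw [Polynomial.map_add, Polynomial.map_mul, Polynomial.map_mul, Polynomial.map_mul,
    Polynomial.map_mul, h1, h2, Polynomial.map_C, Polynomial.map_C, Polynomial.map_C, map_mul]
  rw [Algebra.smul_def, Algebra.smul_def]
  have e : ∀ r : R, (algebraMap R (FractionRing R)[X]) r =
      Polynomial.C (algebraMap R (FractionRing R) r) := fun r => rfl
  rw [e, e]
  calc Polynomial.C (algebraMap R (FractionRing R) d2) *
        (Polynomial.C (algebraMap R (FractionRing R) d1) * a) *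
        p.map (algebraMap R (FractionRing R)) +
      Polynomial.C (algebraMap R (FractionRing R) d1) *
        (Polynomial.C (algebraMap R (FractionRing R) d2) * b) *
        q.map (algebraMap R (FractionRing R))
      = Polynomial.C (algebraMap R (FractionRing R) d1) *
        Polynomial.C (algebraMap R (FractionRing R) d2) *
        (a * p.map (algebraMap R (FractionRing R)) +
          b * q.map (algebraMap R (FractionRing R))) := by ring
    _ = _ := by rw [hab, mul_one, ← Polynomial.C_mul]

end clear

section poly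

variable {m : ℕ}

theorem pval_eq {P : ℂ[X]} (hP : P.Monic) (hm : P.natDegree = m) (y : ℂ) :
    pval (fun i : Fin m => P.coeff i) y = P.eval y := by
  conv_rhs => rw [hP.as_sum]
  rw [Polynomial.eval_add, Polynomial.eval_pow, Polynomial.eval_X, Polynomial.eval_finsetSum, hm]
  unfold pval
  rw [Finset.sum_range]
  simp

theorem dval_eq {P : ℂ[X]} (hP : P.Monic) (hm : P.natDegree = m) (y : ℂ) :
    dval (fun i : Fin m => P.coeff i) y = P.derivative.eval y := by
  conv_rhs => rw [hP.as_sum]
  rw [Polynomial.derivative_add, Polynomial.derivative_X_pow, Polynomial.derivative_sum,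
    Polynomial.eval_add, Polynomial.eval_finsetSum, hm]
  unfold dval
  rw [Finset.sum_range]
  simp [Polynomial.derivative_X_pow]

end poly

end Pool.Agent.L7h9.SU
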