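import Pool.Agent.L7h9.SU.Cov
set_option autoImplicit false

/-!
Tori in the covering `p(x, y) = 0`, and the periods of the symbols.
-/

namespace Pool.Agent.L7h9.SU

open scoped WithZero Polynomial

open Pool.Agent.TH826.MK

open Pool.Agent.Y797.TW (Tower fct)

open Pool.Agent.N65.TL

section ev

variable {K : Type*} [Field K] {n d : ℕ} {A : Tower K n}
  {p G : (MvPolynomial (Fin (n + 1)) K)[X]} {σ : K →+* ℂ}

/-- The value of a polynomial in `x` and `y`. -/
noncomputable def pev (σ : K →+* ℂ) (X : Fin (n + 1) → ℂ) (y : ℂ)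
    (Q : (MvPolynomial (Fin (n + 1)) K)[X]) : ℂ :=
  Polynomial.eval₂ (MvPolynomial.eval₂Hom σ X) y Q

/-- a point of the covering -/
noncomputable def ev0 {X : Fin (n + 1) → ℂ} {y : ℂ} (h : pev σ X y p = 0) : AdjoinRoot p →+* ℂ :=
  AdjoinRoot.lift (MvPolynomial.eval₂Hom σ X) y h

theorem ev0_mk {X : Fin (n + 1) → ℂ} {y : ℂ} (h : pev σ X y p = 0)
    (Q : (MvPolynomial (Fin (n + 1)) K)[X]) : ev0 h (AdjoinRoot.mk p Q) = pev σ X y Q :=
  AdjoinRoot.lift_mk _ _

theorem ev0_of {X : Fin (n + 1) → ℂ} {y : ℂ} (h : pev σ X y p = 0)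
    (c : MvPolynomial (Fin (n + 1)) K) : ev0 h (AdjoinRoot.of p c) = MvPolynomial.eval₂ σ X c :=
  AdjoinRoot.lift_of _

/-- a point of the open part of the covering -/
noncomputable def covEv {X : Fin (n + 1) → ℂ} {y : ℂ} (h : pev σ X y p = 0)
    (h1 : ev0 h (cden A p G) ≠ 0) : CovRing A p G →+* ℂ :=
  IsLocalization.Away.lift (cden A p G) (g := ev0 h) (isUnit_iff_ne_zero.2 h1)

theorem covEv_map {X : Fin (n + 1) → ℂ} {y : ℂ} (h : pev σ X y p = 0)
    (h1 : ev0 h (cden A p G) ≠ 0) (q : AdjoinRoot p) : covEv h h1 (covMap A p G q) = ev0 h q :=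
  IsLocalization.Away.lift_eq _ _ _

theorem covEv_congr {X X' : Fin (n + 1) → ℂ} {y y' : ℂ} (h : pev σ X y p = 0)
    (h' : pev σ X' y' p = 0) (h1 : ev0 h (cden A p G) ≠ 0) (h1' : ev0 h' (cden A p G) ≠ 0)
    (e : X = X') (e' : y = y') : covEv h h1 = covEv h' h1' := by
  subst e e'
  rfl

theorem contDiff_eval₂ {X : (Fin d → ℝ) → Fin (n + 1) → ℂ} (hX : ContDiff ℝ 2 X)
    (c : MvPolynomial (Fin (n + 1)) K) :
    ContDiff ℝ 2 fun θ => MvPolynomial.eval₂ σ (X θ) c := by
  induction c using MvPolynomial.induction_on with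
  | C c => simpa using contDiff_const
  | add p q hp hq => simpa using hp.add hq
  | mul_X p k hp => simpa using hp.mul (contDiff_pi.1 hX k)

theorem contDiff_pev {X : (Fin d → ℝ) → Fin (n + 1) → ℂ} (hX : ContDiff ℝ 2 X)
    {y : (Fin d → ℝ) → ℂ} (hy : ContDiff ℝ 2 y) (Q : (MvPolynomial (Fin (n + 1)) K)[X]) :
    ContDiff ℝ 2 fun θ => pev σ (X θ) (y θ) Q := by
  unfold pev
  simp only [Polynomial.eval₂_eq_sum_range]
  exact ContDiff.sum fun i _ => (contDiff_eval₂ hX (Q.coeff i)).mul (hy.pow i)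

/-- the torus in the open part of the covering -/
noncomputable def covT {X : (Fin d → ℝ) → Fin (n + 1) → ℂ} (hX : ContDiff ℝ 2 X)
    {y : (Fin d → ℝ) → ℂ} (hy : ContDiff ℝ 2 y)
    (hXp : ∀ θ i, X (θ + Pi.single i 1) = X θ) (hyp : ∀ θ i, y (θ + Pi.single i 1) = y θ)
    (h : ∀ θ, pev σ (X θ) (y θ) p = 0) (h1 : ∀ θ, ev0 (h θ) (cden A p G) ≠ 0) :
    Torus (CovRing A p G) d where
  e θ := covEv (h θ) (h1 θ)
  smooth f := by
    obtain ⟨m, a, ha⟩ := IsLocalization.Away.surj (cden A p G) f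
    obtain ⟨Q, rfl⟩ := AdjoinRoot.mk_surjective a
    obtain ⟨Q', hQ'⟩ := AdjoinRoot.mk_surjective (cden A p G)
    have e1 : (fun θ => covEv (h θ) (h1 θ) f) = fun θ =>
        pev σ (X θ) (y θ) Q * (pev σ (X θ) (y θ) Q' ^ m)⁻¹ := by
      funext θ
      have e2 := congrArg (covEv (h θ) (h1 θ)) ha
      rw [map_mul, map_pow] at e2
      have e3 : ∀ q : AdjoinRoot p, covEv (h θ) (h1 θ) (algebraMap (AdjoinRoot p)
          (CovRing A p G) q) = ev0 (h θ) q := fun q => covEv_map (h θ) (h1 θ) q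
      have e4 : ev0 (h θ) (cden A p G) = pev σ (X θ) (y θ) Q' := by rw [← hQ', ev0_mk]
      rw [e3, e3, ev0_mk, e4] at e2
      have e5 : pev σ (X θ) (y θ) Q' ≠ 0 := by
        rw [← e4]
        exact h1 θ
      rw [← e2, mul_assoc, mul_inv_cancel₀ (pow_ne_zero _ e5), mul_one]
    rw [e1]
    refine (contDiff_pev hX hy Q).mul (((contDiff_pev hX hy Q').pow m).inv fun θ => ?_)
    refine pow_ne_zero _ ?_
    rw [← ev0_mk (h θ), hQ']
    exact h1 θ
  periodic θ i := covEv_congr _ _ _ _ (hXp θ i) (hyp θ i)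

end ev

section periods

variable {K : Type*} [Field K] [CharZero K] {n : ℕ} {A : Tower K n}
  {p G : (MvPolynomial (Fin (n + 1)) K)[X]}

theorem exists_cov_torus (σ : K →+* ℂ) (hp : p.Monic) (hdeg : 0 < p.natDegree)
    {D : MvPolynomial (Fin (n + 1)) K} {a b a' b' : (MvPolynomial (Fin (n + 1)) K)[X]}
    {D1 D2 : MvPolynomial (Fin (n + 1)) K} (hD : D = D1 * D2)
    (h1 : a * p + b * Polynomial.derivative p = Polynomial.C D1)
    (h2 : a' * p + b' * G = Polynomial.C D2) {X : (Fin (n + 1) → ℝ) → Fin (n + 1) → ℂ}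
    (hX : ContDiff ℝ 2 X) (hXp : ∀ θ i, X (θ + Pi.single i 1) = X θ)
    (hfac : ∀ θ j i, MvPolynomial.eval₂ σ (X θ) (A.fac j i) ≠ 0)
    (hg : ∀ θ, MvPolynomial.eval₂ σ (X θ) A.g ≠ 0)
    (hDne : ∀ θ, MvPolynomial.eval₂ σ (X θ) D ≠ 0) :
    ∃ (N : ℕ) (γ : Torus (CovRing A p G) (n + 1)), 0 < N ∧
      (∀ θ x, γ.e θ (covConst A p G x) = σ x) ∧
      ∀ k : ∀ j, Fin (A.r j), γ.reg (byTwo (covConst A p G) (symb (covU A p G k))) =
        (N : ℝ) ^ (n + 1) * pairing (bfun A σ X k) := by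
  classical
  set F : (Fin (n + 1) → ℝ) → MvPolynomial (Fin (n + 1)) K →+* ℂ := fun θ =>
    MvPolynomial.eval₂Hom σ (X θ) with hF
  have hD1 : ∀ θ, F θ D1 ≠ 0 := fun θ h0 => hDne θ (by
    have : F θ D = 0 := by rw [hD, map_mul, h0, zero_mul]
    exact this)
  have hD2 : ∀ θ, F θ D2 ≠ 0 := fun θ h0 => hDne θ (by
    have : F θ D = 0 := by rw [hD, map_mul, h0, mul_zero]
    exact this)
  set m : ℕ := p.natDegree with hm
  set c : (Fin (n + 1) → ℝ) → Fin m → ℂ := fun θ i => F θ (p.coeff i) with hc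
  have hPm : ∀ θ, (p.map (F θ)).Monic := fun θ => hp.map _
  have hPd : ∀ θ, (p.map (F θ)).natDegree = m := fun θ => hp.natDegree_map _
  have hcP : ∀ θ, c θ = fun i : Fin m => (p.map (F θ)).coeff i := fun θ => by
    funext i
    rw [Polynomial.coeff_map]
  have hpv : ∀ θ y, pval (c θ) y = pev σ (X θ) y p := fun θ y => by
    rw [hcP, pval_eq (hPm θ) (hPd θ), Polynomial.eval_map]
    rfl
  have hdv : ∀ θ y, dval (c θ) y = pev σ (X θ) y (Polynomial.derivative p) := fun θ y => by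
    rw [hcP, dval_eq (hPm θ) (hPd θ), Polynomial.derivative_map, Polynomial.eval_map]
    rfl
  have hsep : ∀ θ y, pev σ (X θ) y p = 0 → pev σ (X θ) y (Polynomial.derivative p) ≠ 0 := by
    intro θ y h0 h3
    have h4 := congrArg (Polynomial.eval₂ (F θ) y) h1
    rw [Polynomial.eval₂_add, Polynomial.eval₂_mul, Polynomial.eval₂_mul,
      Polynomial.eval₂_C] at h4
    have h5 : Polynomial.eval₂ (F θ) y p = 0 := h0
    have h6 : Polynomial.eval₂ (F θ) y (Polynomial.derivative p) = 0 := h3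
    rw [h5, h6, mul_zero, mul_zero, add_zero] at h4
    exact hD1 θ h4.symm
  have hcop : ∀ θ y, pev σ (X θ) y p = 0 → pev σ (X θ) y G ≠ 0 := by
    intro θ y h0 h3
    have h4 := congrArg (Polynomial.eval₂ (F θ) y) h2
    rw [Polynomial.eval₂_add, Polynomial.eval₂_mul, Polynomial.eval₂_mul,
      Polynomial.eval₂_C] at h4
    have h5 : Polynomial.eval₂ (F θ) y p = 0 := h0
    have h6 : Polynomial.eval₂ (F θ) y G = 0 := h3
    rw [h5, h6, mul_zero, mul_zero, add_zero] at h4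
    exact hD2 θ h4.symm
  obtain ⟨N, y, hN, hyc, hyp, hyr⟩ := exists_periodic_root (c := c) hdeg
    (contDiff_pi.2 fun i => contDiff_eval₂ hX (p.coeff i)) (fun θ i => by
      simp only [hc, hF]
      rw [hXp]) (fun θ y => by
      rw [hpv, hdv]
      exact hsep θ y)
  have hNR : (0 : ℝ) < N := by exact_mod_cast hN
  set X' : (Fin (n + 1) → ℝ) → Fin (n + 1) → ℂ := fun θ => X ((N : ℝ) • θ) with hX'
  have hX'c : ContDiff ℝ 2 X' := hX.comp (contDiff_const_smul _)
  have hX'p : ∀ θ i, X' (θ + Pi.single i 1) = X' θ := fun θ i =>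
    pul_per (n := n + 1) (s := 0) (k := N) (F := X) hXp θ i
  have hroot : ∀ θ, pev σ (X' θ) (y θ) p = 0 := fun θ => by
    rw [← hpv]
    exact hyr θ
  have hden : ∀ θ, ev0 (hroot θ) (cden A p G) ≠ 0 := by
    intro θ
    unfold cden covPhi
    rw [map_mul, map_mul, ev0_mk, ev0_mk, ev0_of]
    refine mul_ne_zero (mul_ne_zero (hcop _ _ (hroot θ)) ?_) (hsep _ _ (hroot θ))
    have h3 : MvPolynomial.eval₂ σ (X' θ) A.prod = MvPolynomial.eval₂ σ (X' θ) A.g *
        ∏ j, ∏ i, MvPolynomial.eval₂ σ (X' θ) (A.fac j i) := by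
      have h4 : ∀ q, MvPolynomial.eval₂ σ (X' θ) q = MvPolynomial.eval₂Hom σ (X' θ) q :=
        fun q => rfl
      simp only [h4]
      unfold Tower.prod
      rw [map_mul, map_prod]
      congr 1
      exact Finset.prod_congr rfl fun j _ => map_prod _ _ _
    rw [h3]
    exact mul_ne_zero (hg _) (Finset.prod_ne_zero_iff.2 fun j _ =>
      Finset.prod_ne_zero_iff.2 fun i _ => hfac _ j i)
  set γ := covT hX'c hyc hX'p hyp hroot hden with hγ
  have hγe : ∀ θ q, γ.e θ (covMap A p G q) = ev0 (hroot θ) q := fun θ q =>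
    covEv_map (hroot θ) (hden θ) q
  have hγσ : ∀ θ x, γ.e θ (covConst A p G x) = σ x := fun θ x => by
    have h3 : covConst A p G x = covMap A p G (AdjoinRoot.of p (MvPolynomial.C x)) := rfl
    rw [h3, hγe, ev0_of, MvPolynomial.eval₂_C]
  refine ⟨N, γ, hN, hγσ, fun k => ?_⟩
  rw [reg_byTwo hγσ]
  -- the functions
  have hbg : ∀ l, Good (bfun A σ X k l) := by
    intro l
    obtain ⟨r, rfl⟩ := (rE (n + 1) 0).surjective l
    rcases r with i | a
    · have e1 : bfun A σ X k (rE (n + 1) 0 (Sum.inl i)) = fun θ =>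
          MvPolynomial.eval₂ σ (X θ) (A.fac i (k i).succ) /
            MvPolynomial.eval₂ σ (X θ) (A.fac i 0) :=
        Fin.append_left (m := n + 1) (n := 1) _ _ i
      rw [e1]
      refine ⟨?_, fun θ => div_ne_zero (hfac θ _ _) (hfac θ _ _)⟩
      simp only [div_eq_mul_inv]
      exact (contDiff_eval₂ hX _).mul ((contDiff_eval₂ hX _).inv fun θ => hfac θ _ _)
    · have e1 : bfun A σ X k (rE (n + 1) 0 (Sum.inr a)) = fun _ => (2 : ℂ) :=
        Fin.append_right (m := n + 1) (n := 1) _ _ a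
      rw [e1]
      exact good_const two_ne_zero
  have hbp : ∀ l, Per (bfun A σ X k l) := by
    intro l θ j
    obtain ⟨r, rfl⟩ := (rE (n + 1) 0).surjective l
    rcases r with i | a
    · have e1 : bfun A σ X k (rE (n + 1) 0 (Sum.inl i)) = fun θ =>
          MvPolynomial.eval₂ σ (X θ) (A.fac i (k i).succ) /
            MvPolynomial.eval₂ σ (X θ) (A.fac i 0) :=
        Fin.append_left (m := n + 1) (n := 1) _ _ i
      rw [e1]
      simp only [hXp]
    · have e1 : bfun A σ X k (rE (n + 1) 0 (Sum.inr a)) = fun _ => (2 : ℂ) :=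
        Fin.append_right (m := n + 1) (n := 1) _ _ a
      rw [e1]
  rw [← pairing_scale hN hbg hbp]
  congr 1
  funext l
  obtain ⟨r, rfl⟩ := (rE (n + 1) 0).surjective l
  rcases r with i | a
  · have e1 : bfun A σ X k (rE (n + 1) 0 (Sum.inl i)) = fun θ =>
          MvPolynomial.eval₂ σ (X θ) (A.fac i (k i).succ) /
            MvPolynomial.eval₂ σ (X θ) (A.fac i 0) :=
      Fin.append_left (m := n + 1) (n := 1) _ _ i
    have e2 : Fin.append (fun i => γ.fn (covU A p G k i : CovRing A p G))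
        (fun (_ : Fin 1) _ => (2 : ℂ)) (rE (n + 1) 0 (Sum.inl i)) =
        γ.fn (covU A p G k i : CovRing A p G) :=
      Fin.append_left (m := n + 1) (n := 1) _ _ i
    rw [e1, e2]
    funext θ
    have h3 : ∀ e, γ.fn (covL A p G i e : CovRing A p G) θ =
        MvPolynomial.eval₂ σ (X ((N : ℝ) • θ)) (A.fac i e) := fun e => by
      have h4 : (covL A p G i e : CovRing A p G) = covMap A p G (AdjoinRoot.of p (A.fac i e)) :=
        rfl
      rw [h4]
      show γ.e θ (covMap A p G (AdjoinRoot.of p (A.fac i e))) = _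
      rw [hγe, ev0_of]
    have h5 : γ.fn (covU A p G k i : CovRing A p G) θ *
        γ.fn (covL A p G i 0 : CovRing A p G) θ =
        γ.fn (covL A p G i (k i).succ : CovRing A p G) θ := by
      show γ.e θ _ * γ.e θ _ = γ.e θ _
      rw [← map_mul]
      congr 1
      unfold covU
      rw [← Units.val_mul, div_mul_cancel]
    rw [h3, h3] at h5
    exact eq_div_of_mul_eq (hfac _ _ _) h5
  · have e1 : bfun A σ X k (rE (n + 1) 0 (Sum.inr a)) = fun _ => (2 : ℂ) :=
      Fin.append_right (m := n + 1) (n := 1) _ _ a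
    have e2 : Fin.append (fun i => γ.fn (covU A p G k i : CovRing A p G))
        (fun (_ : Fin 1) _ => (2 : ℂ)) (rE (n + 1) 0 (Sum.inr a)) = fun _ => (2 : ℂ) :=
      Fin.append_right (m := n + 1) (n := 1) _ _ a
    rw [e1, e2]

/-- The symbols on the covering have independent periods. -/
theorem cov_periods (σ : K →+* ℂ) (hG : A.Graphs) (hp : p.Monic) (hdeg : 0 < p.natDegree)
    (hsep : (p.map (algebraMap (MvPolynomial (Fin (n + 1)) K)
      (FractionRing (MvPolynomial (Fin (n + 1)) K)))).Separable)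
    (hcop : IsCoprime (p.map (algebraMap (MvPolynomial (Fin (n + 1)) K)
      (FractionRing (MvPolynomial (Fin (n + 1)) K)))) (G.map (algebraMap _ _))) :
    ∃ γ : (∀ j, Fin (A.r j)) → Torus (CovRing A p G) (n + 1),
      (∀ t θ x, (γ t).e θ (covConst A p G x) = σ x) ∧
      (Matrix.of fun t k => (γ t).reg (byTwo (covConst A p G) (symb (covU A p G k)))).det
        ≠ 0 := by
  classical
  obtain ⟨D1, a, b, hD1, h1⟩ := exists_bezout (p := p) (q := Polynomial.derivative p) (by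
    rw [← Polynomial.derivative_map]
    exact hsep)
  obtain ⟨D2, a', b', hD2, h2⟩ := exists_bezout hcop
  set A' : Tower K n := { r := A.r, phi := A.phi, g := A.g * (D1 * D2) } with hA'
  have hG' : A'.Graphs := ⟨hG.1, hG.2.1, mul_ne_zero hG.2.2 (mul_ne_zero hD1 hD2)⟩
  have hpi := Real.pi_pos
  have hlog2 : 0 < Real.log 2 := Real.log_pos one_lt_two
  set c0 : ℝ := (2 * Real.pi) ^ (n + 1) * sg (n + 1) 0 with hc0
  have hsg : sg (n + 1) 0 ≠ 0 := fun h => by
    have := sg_mul_self (n + 1) 0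
    rw [h] at this
    norm_num at this
  have hc00 : c0 ≠ 0 := mul_ne_zero (by positivity) hsg
  have hdiag : (Matrix.diagonal fun _ : (∀ j, Fin (A.r j)) => c0).det ≠ 0 := by
    rw [Matrix.det_diagonal]
    exact Finset.prod_ne_zero_iff.2 fun _ _ => hc00
  obtain ⟨δ, hδ, hnear⟩ := Pool.Agent.TH826.SX.det_ne_zero_near _ hdiag
  choose X hX hXp hXne hXpair using fun c : (∀ j, Fin (A.r j)) =>
    exists_base (A := A') σ hG' c (ε := δ / 2) (by linarith)
  have hfac : ∀ c θ j i, MvPolynomial.eval₂ σ (X c θ) (A.fac j i) ≠ 0 := fun c θ j i =>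
    hXne c θ (some ⟨j, i⟩)
  have hgD : ∀ c θ, MvPolynomial.eval₂ σ (X c θ) (A.g * (D1 * D2)) ≠ 0 := fun c θ =>
    hXne c θ none
  have hg : ∀ c θ, MvPolynomial.eval₂ σ (X c θ) A.g ≠ 0 := fun c θ h0 => hgD c θ (by
    rw [MvPolynomial.eval₂_mul, h0, zero_mul])
  have hDne : ∀ c θ, MvPolynomial.eval₂ σ (X c θ) (D1 * D2) ≠ 0 := fun c θ h0 => hgD c θ (by
    rw [MvPolynomial.eval₂_mul, h0, mul_zero])
  choose N γ hN hγσ hγ using fun c : (∀ j, Fin (A.r j)) =>
    exists_cov_torus (A := A) (G := G) σ hp hdeg rfl h1 h2 (hX c) (hXp c) (hfac c) (hg c)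
      (hDne c)
  refine ⟨γ, hγσ, ?_⟩
  have h3 := hnear (Matrix.of fun c k => pairing (bfun A' σ (X c) k) / Real.log 2)
    (fun c k => by
      have h4 := hXpair c k
      have h5 : (Matrix.diagonal fun _ : (∀ j, Fin (A.r j)) => c0) c k =
          (2 * Real.pi) ^ (n + 1) * (sg (n + 1) 0 * if k = c then 1 else 0) := by
        by_cases h : k = c
        · subst h
          rw [Matrix.diagonal_apply_eq, if_pos rfl, mul_one]
        · rw [Matrix.diagonal_apply_ne _ (Ne.symm h), if_neg h, mul_zero, mul_zero]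
      rw [Matrix.of_apply, h5]
      exact lt_of_le_of_lt h4 (by linarith))
  have h6 : (Matrix.of fun t k => (γ t).reg (byTwo (covConst A p G) (symb (covU A p G k)))) =
      Matrix.of fun c k => ((N c : ℝ) ^ (n + 1) * Real.log 2) *
        (Matrix.of fun c k => pairing (bfun A' σ (X c) k) / Real.log 2) c k := by
    ext c k
    rw [Matrix.of_apply, Matrix.of_apply, Matrix.of_apply, hγ]
    have h7 : pairing (bfun A' σ (X c) k) = pairing (bfun A σ (X c) k) := rfl
    rw [h7]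
    field_simp
  rw [h6, Matrix.det_mul_column]
  refine mul_ne_zero (Finset.prod_ne_zero_iff.2 fun c _ => mul_ne_zero (pow_ne_zero _ ?_)
    hlog2.ne') h3
  exact_mod_cast (hN c).ne'

end periods

end Pool.Agent.L7h9.SU
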