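import Pool.Agent.TH826.MK.Torus
set_option autoImplicit false

/-!
Logarithms and roots of nonvanishing periodic functions; bounds for periodic functions.
-/

namespace Pool.Agent.L7h9.SU

open Pool.Agent.TH826.MK

open MeasureTheory Set Filter Topology

variable {d : ℕ}

/-- Periodic functions depend on the fractional parts only. -/
theorem per_fract {E : Type*} {F : (Fin d → ℝ) → E}
    (hp : ∀ θ i, F (θ + Pi.single i 1) = F θ) (θ : Fin d → ℝ) :
    F (fun i => Int.fract (θ i)) = F θ := by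
  classical
  have hn : ∀ (m : ℕ) θ i, F (θ + Pi.single i (m : ℝ)) = F θ := by
    intro m
    induction m with
    | zero => intro θ i; simp
    | succ m ih =>
      intro θ i
      push_cast
      rw [Pi.single_add, ← add_assoc, hp, ih]
  have hz : ∀ (m : ℤ) θ i, F (θ + Pi.single i (m : ℝ)) = F θ := by
    intro m θ i
    rcases Int.eq_nat_or_neg m with ⟨k, hk | hk⟩
    · rw [hk, Int.cast_natCast]
      exact hn k θ i
    · have h1 := hn k (θ + Pi.single i (m : ℝ)) i
      rw [add_assoc, ← Pi.single_add] at h1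
      have h2 : (m : ℝ) + (k : ℝ) = 0 := by rw [hk]; push_cast; ring
      rw [h2, Pi.single_zero, add_zero] at h1
      exact h1.symm
  have hs : ∀ (t : Finset (Fin d)) (m : Fin d → ℤ) θ,
      F (θ + ∑ i ∈ t, Pi.single i (m i : ℝ)) = F θ := by
    intro t m
    induction t using Finset.induction_on with
    | empty => intro θ; simp
    | insert j t hj ih =>
      intro θ
      rw [Finset.sum_insert hj, ← add_assoc, ih, hz]
  have h1 := hs Finset.univ (fun i => ⌊θ i⌋) (fun i => Int.fract (θ i))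
  have h2 : (fun i => Int.fract (θ i)) + ∑ i, Pi.single i ((⌊θ i⌋ : ℤ) : ℝ) = θ := by
    funext j
    rw [Pi.add_apply, Finset.sum_apply, Finset.sum_eq_single j, Pi.single_eq_same]
    · exact Int.fract_add_floor _
    · intro i _ hi
      rw [Pi.single_eq_of_ne hi.symm]
    · intro h
      exact absurd (Finset.mem_univ _) h
  rw [h2] at h1
  exact h1.symm

/-- Periodic continuous functions are bounded. -/
theorem per_bdd {F : (Fin d → ℝ) → ℝ} (hF : Continuous F)
    (hp : ∀ θ i, F (θ + Pi.single i 1) = F θ) : ∃ C : ℝ, 0 ≤ C ∧ ∀ θ, |F θ| ≤ C := by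
  obtain ⟨C, hC⟩ := (isCompact_Icc (a := (0 : Fin d → ℝ)) (b := 1)).exists_bound_of_continuousOn
    hF.continuousOn
  refine ⟨|C|, abs_nonneg C, fun θ => ?_⟩
  rw [← per_fract hp θ]
  refine (hC _ ⟨fun i => Int.fract_nonneg _, fun i => (Int.fract_lt_one _).le⟩).trans
    (le_abs_self C)

theorem Good.bdd {g : (Fin d → ℝ) → ℂ} (hg : Good g) (hp : Per g) :
    ∃ C : ℝ, 0 ≤ C ∧ (∀ θ, |Real.log ‖g θ‖| ≤ C) ∧ ∀ j θ, ‖lw g j θ‖ ≤ C := by
  obtain ⟨C0, h00, h0⟩ := per_bdd (F := fun θ => Real.log ‖g θ‖)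
    (hg.smooth.continuous.norm.log fun θ => norm_ne_zero_iff.2 (hg.ne_zero θ))
    (fun θ i => by rw [hp])
  have hlc : ∀ j, Continuous (lw g j) := fun j =>
    continuous_iff_continuousAt.2 fun θ => (hasFDerivAt_lw hg.smooth hg.ne_zero j θ).continuousAt
  choose C1 h10 h1 using fun j => per_bdd (F := fun θ => ‖lw g j θ‖) (hlc j).norm
    (fun θ i => by rw [hp.lw])
  have hs : 0 ≤ ∑ j, C1 j := Finset.sum_nonneg fun j _ => h10 j
  refine ⟨C0 + ∑ j, C1 j, by linarith, fun θ => (h0 θ).trans (by linarith), fun j θ => ?_⟩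
  have h2 := h1 j θ
  rw [abs_of_nonneg (norm_nonneg _)] at h2
  have h3 := Finset.single_le_sum (f := C1) (fun j _ => h10 j) (Finset.mem_univ j)
  linarith

/-- Logarithms of nonvanishing functions. -/
theorem exists_log {g : (Fin d → ℝ) → ℂ} (hg : Good g) :
    ∃ l : (Fin d → ℝ) → ℂ, ContDiff ℝ 2 l ∧ ∀ θ, Complex.exp (l θ) = g θ := by
  have hdiff : Differentiable ℝ g := hg.smooth.differentiable (by norm_num)
  have hfc : Continuous (fderiv ℝ g) := (hg.smooth.fderiv_right (m := 1) (by norm_num)).continuous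
  set q : (Fin d → ℝ) → ℝ → ℂ := fun θ t => fderiv ℝ g (t • θ) θ / g (t • θ) with hq
  have hqc : Continuous (Function.uncurry q) := by
    refine Continuous.div ?_ ?_ fun p => hg.ne_zero _
    · exact (hfc.comp (continuous_snd.smul continuous_fst)).clm_apply continuous_fst
    · exact hg.smooth.continuous.comp (continuous_snd.smul continuous_fst)
  obtain ⟨c, hc⟩ : ∃ c, Complex.exp c = g 0 := ⟨Complex.log (g 0), Complex.exp_log (hg.ne_zero 0)⟩
  set l : (Fin d → ℝ) → ℂ := fun θ => c + ∫ t in (0 : ℝ)..1, q θ t with hl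
  have hexp : ∀ θ, Complex.exp (l θ) = g θ := by
    intro θ
    have hqθ : Continuous (q θ) := hqc.comp (Continuous.prodMk continuous_const continuous_id)
    set G : ℝ → ℂ := fun t => g (t • θ) * Complex.exp (-(c + ∫ u in (0 : ℝ)..t, q θ u)) with hG
    have hd : ∀ t, HasDerivAt G 0 t := by
      intro t
      have h1 : HasDerivAt (fun t : ℝ => g (t • θ)) (fderiv ℝ g (t • θ) θ) t := by
        have h2 : HasDerivAt (fun t : ℝ => t • θ) θ t := by
          simpa using (hasDerivAt_id t).smul_const θ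
        exact (hdiff (t • θ)).hasFDerivAt.comp_hasDerivAt t h2
      have h3 : HasDerivAt (fun t : ℝ => ∫ u in (0 : ℝ)..t, q θ u) (q θ t) t :=
        intervalIntegral.integral_hasDerivAt_right (hqθ.intervalIntegrable _ _)
          (hqθ.stronglyMeasurableAtFilter _ _) hqθ.continuousAt
      have h4 := h1.mul ((h3.const_add c).neg.cexp)
      have h5 : g (t • θ) ≠ 0 := hg.ne_zero _
      have h6 : fderiv ℝ g (t • θ) θ = g (t • θ) * q θ t := by
        simp only [hq]
        field_simp
      have h7 : fderiv ℝ g (t • θ) θ * Complex.exp (-(c + ∫ u in (0 : ℝ)..t, q θ u)) +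
          g (t • θ) * (Complex.exp (-(c + ∫ u in (0 : ℝ)..t, q θ u)) * -q θ t) = 0 := by
        rw [h6]
        ring
      have h8 : HasDerivAt G (fderiv ℝ g (t • θ) θ *
          Complex.exp (-(c + ∫ u in (0 : ℝ)..t, q θ u)) +
          g (t • θ) * (Complex.exp (-(c + ∫ u in (0 : ℝ)..t, q θ u)) * -q θ t)) t := h4
      rwa [h7] at h8
    have h1 : G 1 = G 0 := is_const_of_deriv_eq_zero (fun t => (hd t).differentiableAt)
      (fun t => (hd t).deriv) 1 0
    simp only [hG, one_smul, zero_smul, intervalIntegral.integral_same, add_zero] at h1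
    rw [Complex.exp_neg, Complex.exp_neg, hc, mul_inv_cancel₀ (hg.ne_zero 0)] at h1
    have h2 : Complex.exp (c + ∫ u in (0 : ℝ)..1, q θ u) ≠ 0 := Complex.exp_ne_zero _
    show Complex.exp (c + ∫ u in (0 : ℝ)..1, q θ u) = g θ
    rw [← div_eq_mul_inv, div_eq_one_iff_eq h2] at h1
    exact h1.symm
  have hlc : Continuous l := continuous_const.add
    (intervalIntegral.continuous_parametric_intervalIntegral_of_continuous' hqc 0 1)
  refine ⟨l, ?_, hexp⟩
  rw [contDiff_iff_contDiffAt]
  intro θ0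
  have h1 : ∀ᶠ θ in 𝓝 θ0, ‖l θ - l θ0‖ < Real.pi := by
    have h2 : Tendsto (fun θ => ‖l θ - l θ0‖) (𝓝 θ0) (𝓝 0) := by
      have h3 : Continuous fun θ => ‖l θ - l θ0‖ := (hlc.sub continuous_const).norm
      have h4 := h3.tendsto θ0
      simpa using h4
    exact h2.eventually (gt_mem_nhds Real.pi_pos)
  have h2 : l =ᶠ[𝓝 θ0] fun θ => l θ0 + Complex.log (g θ / g θ0) := by
    filter_upwards [h1] with θ hθ
    rw [← hexp θ, ← hexp θ0, ← Complex.exp_sub, Complex.log_exp]
    · ring
    · have := (abs_le.1 ((Complex.abs_im_le_norm (l θ - l θ0)))).1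
      linarith
    · have := (abs_le.1 ((Complex.abs_im_le_norm (l θ - l θ0)))).2
      linarith
  refine ContDiffAt.congr_of_eventuallyEq ?_ h2
  refine contDiffAt_const.add ?_
  have h3 : ContDiffAt ℝ 2 Complex.log (g θ0 / g θ0) := by
    rw [div_self (hg.ne_zero θ0)]
    exact (Complex.contDiffAt_log Complex.one_mem_slitPlane).restrict_scalars ℝ
  exact h3.comp θ0 ((hg.smooth.contDiffAt).div_const _)

theorem log_per {l g : (Fin d → ℝ) → ℂ} (hl : ContDiff ℝ 2 l) (he : ∀ θ, Complex.exp (l θ) = g θ)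
    (hp : Per g) (i : Fin d) :
    ∃ m : ℤ, ∀ θ, l (θ + Pi.single i 1) = l θ + m * (2 * Real.pi * Complex.I) := by
  have hex : ∀ θ, ∃ m : ℤ, l (θ + Pi.single i 1) = l θ + m * (2 * Real.pi * Complex.I) := by
    intro θ
    have h1 : Complex.exp (l (θ + Pi.single i 1)) = Complex.exp (l θ) := by
      rw [he, he, hp]
    exact Complex.exp_eq_exp_iff_exists_int.1 h1
  choose m hm using hex
  have hre : ∀ θ, ((m θ : ℤ) : ℝ) =
      ((l (θ + Pi.single i 1) - l θ) / (2 * Real.pi * Complex.I)).re := by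
    intro θ
    have h2 : (2 * Real.pi * Complex.I : ℂ) ≠ 0 := by
      simp [Real.pi_ne_zero]
    rw [hm θ, add_sub_cancel_left, mul_div_cancel_right₀ _ h2, Complex.intCast_re]
  have hc : Continuous fun θ => ((m θ : ℤ) : ℝ) := by
    simp only [hre]
    refine Complex.continuous_re.comp (Continuous.div_const ?_ _)
    exact (hl.continuous.comp (continuous_id.add continuous_const)).sub hl.continuous
  have hc2 : Continuous m := Int.isClosedEmbedding_coe_real.continuous_iff.2 hc
  refine ⟨m 0, fun θ => ?_⟩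
  rw [hm θ]
  have h3 : m θ = m 0 := PreconnectedSpace.constant inferInstance hc2
  rw [h3]

/-- Roots of nonvanishing periodic functions on coverings of the torus. -/
theorem exists_kroot {g : (Fin d → ℝ) → ℂ} (hg : Good g) (hp : Per g) {k : ℕ} (hk : 0 < k) :
    ∃ h : (Fin d → ℝ) → ℂ, Good h ∧ Per h ∧ ∀ θ, h θ ^ k = g ((k : ℝ) • θ) := by
  obtain ⟨l, hl, he⟩ := exists_log hg
  have hk0 : (k : ℂ) ≠ 0 := by exact_mod_cast hk.ne'
  refine ⟨fun θ => Complex.exp (l ((k : ℝ) • θ) / k), ⟨?_, fun θ => Complex.exp_ne_zero _⟩,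
    fun θ i => ?_, fun θ => ?_⟩
  · have h1 : ContDiff ℝ 2 fun θ : Fin d → ℝ => (k : ℝ) • θ := contDiff_id.const_smul (k : ℝ)
    exact ((hl.comp h1).div_const _).cexp
  · obtain ⟨m, hm⟩ := log_per hl he hp i
    have h1 : ∀ (j : ℕ) θ, l (θ + Pi.single i (j : ℝ)) =
        l θ + j * (m * (2 * Real.pi * Complex.I)) := by
      intro j
      induction j with
      | zero => intro θ; simp
      | succ j ih =>
        intro θ
        push_cast
        rw [Pi.single_add, ← add_assoc, hm, ih]
        ring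
    have h2 : (k : ℝ) • (θ + Pi.single i (1 : ℝ)) = (k : ℝ) • θ + Pi.single i (k : ℝ) := by
      rw [smul_add, ← Pi.single_smul, smul_eq_mul, mul_one]
    show Complex.exp _ = Complex.exp _
    rw [h2, h1, add_div, mul_div_cancel_left₀ _ hk0, Complex.exp_add,
      Complex.exp_int_mul_two_pi_mul_I, mul_one]
  · rw [← Complex.exp_nat_mul, mul_div_cancel₀ _ hk0, he]

end Pool.Agent.L7h9.SU
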