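import Pool.Agent.L7h9.SU.Alg
set_option autoImplicit false

/-!
The suspension `W(z_0, ..., z_s) = g` of a ring with a function `g`.
-/

namespace Pool.Agent.L7h9.SU

open scoped WithZero

open Pool.Agent.TH826.MK

open Pool.Agent.N65.TL

section defs

variable {K A : Type*} [Field K] [CommRing A] {s : ℕ}

/-- The equation `W(z) - g`. -/
noncomputable def seqn (ι : K →+* A) (W : LP K (s + 1)) (g : A) : LP A (s + 1) :=
  AddMonoidAlgebra.mapRingHom (Fin (s + 1) → ℤ) ι W - AddMonoidAlgebra.singleZeroRingHom g

/-- The coordinate ring of the hypersurface `W(z) = g` in the product of the variety with the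
coordinate ring `A` and the torus with the coordinates `z_0, ..., z_s`. -/
def SRing (ι : K →+* A) (W : LP K (s + 1)) (g : A) : Type _ :=
  LP A (s + 1) ⧸ Ideal.span {seqn ι W g}

variable (ι : K →+* A) (W : LP K (s + 1)) (g : A)

noncomputable instance : CommRing (SRing ι W g) :=
  Ideal.Quotient.commRing (Ideal.span {seqn ι W g})

/-- The restriction of functions. -/
noncomputable def smk : LP A (s + 1) →+* SRing ι W g := Ideal.Quotient.mk (Ideal.span {seqn ι W g})

/-- The functions in `A` as functions on the hypersurface. -/
noncomputable def sbase : A →+* SRing ι W g :=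
  (smk ι W g).comp AddMonoidAlgebra.singleZeroRingHom

/-- The units `z_i`. -/
noncomputable def sz (i : Fin (s + 1)) : (SRing ι W g)ˣ :=
  Units.map (smk ι W g : LP A (s + 1) →* SRing ι W g) (zlau i)

theorem smk_surjective : Function.Surjective (smk ι W g) := Ideal.Quotient.mk_surjective

end defs

section ev

variable {K A : Type*} [Field K] [CommRing A] {s : ℕ} {ι : K →+* A} {W : LP K (s + 1)} {g : A}
  {S : Type*} [CommRing S]

theorem lev_mapRingHom (φ : A →+* S) (z : Fin (s + 1) → Sˣ) (W : LP K (s + 1)) :
    lev φ z (AddMonoidAlgebra.mapRingHom (Fin (s + 1) → ℤ) ι W) = lev (φ.comp ι) z W := by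
  have h : (lev φ z).comp (AddMonoidAlgebra.mapRingHom (Fin (s + 1) → ℤ) ι) =
      lev (φ.comp ι) z := by
    refine AddMonoidAlgebra.ringHom_ext (fun r => ?_) fun m => ?_
    · rw [RingHom.comp_apply, AddMonoidAlgebra.mapRingHom_single, lev_single, lev_single,
        RingHom.comp_apply]
    · rw [RingHom.comp_apply, AddMonoidAlgebra.mapRingHom_single, lev_single, lev_single, map_one,
        map_one, map_one]
  exact RingHom.congr_fun h W

theorem lev_singleZero (φ : A →+* S) (z : Fin (s + 1) → Sˣ) (a : A) :
    lev φ z (AddMonoidAlgebra.singleZeroRingHom a) = φ a := by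
  have h : (AddMonoidAlgebra.singleZeroRingHom a : LP A (s + 1)) =
    AddMonoidAlgebra.single 0 a := rfl
  rw [h, lev_single, mon_zero, Units.val_one, mul_one]

theorem lev_seqn {φ : A →+* S} {z : Fin (s + 1) → Sˣ} (h : lev (φ.comp ι) z W = φ g) :
    lev φ z (seqn ι W g) = 0 := by
  unfold seqn
  rw [map_sub, lev_mapRingHom, lev_singleZero, h, sub_self]

/-- The point of the hypersurface. -/
noncomputable def sev (φ : A →+* S) (z : Fin (s + 1) → Sˣ) (h : lev (φ.comp ι) z W = φ g) :
    SRing ι W g →+* S :=
  Ideal.Quotient.lift (Ideal.span {seqn ι W g}) (lev φ z) (by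
    intro a ha
    obtain ⟨b, rfl⟩ := Ideal.mem_span_singleton'.1 ha
    rw [map_mul, lev_seqn h, mul_zero])

theorem sev_smk (φ : A →+* S) (z : Fin (s + 1) → Sˣ) (h : lev (φ.comp ι) z W = φ g)
    (P : LP A (s + 1)) : sev φ z h (smk ι W g P) = lev φ z P := Ideal.Quotient.lift_mk _ _ _

theorem sev_sbase (φ : A →+* S) (z : Fin (s + 1) → Sˣ) (h : lev (φ.comp ι) z W = φ g) (a : A) :
    sev φ z h (sbase ι W g a) = φ a := by
  unfold sbase
  rw [RingHom.comp_apply, sev_smk, lev_singleZero]

theorem sev_sz (φ : A →+* S) (z : Fin (s + 1) → Sˣ) (h : lev (φ.comp ι) z W = φ g)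
    (i : Fin (s + 1)) : sev φ z h (sz ι W g i : SRing ι W g) = z i := by
  have h1 : (sz ι W g i : SRing ι W g) = smk ι W g (AddMonoidAlgebra.single (Pi.single i 1) 1) :=
    rfl
  rw [h1, sev_smk, lev_single, map_one, one_mul, mon_single]

/-- The equation in a ring with a homomorphism from the coordinate ring. -/
theorem eqn_of_hom (f : SRing ι W g →+* S) :
    lev ((f.comp (sbase ι W g)).comp ι)
      (fun i => Units.map (f : SRing ι W g →* S) (sz ι W g i)) W = f (sbase ι W g g) := by
  have h0 : smk ι W g (seqn ι W g) = 0 :=
    Ideal.Quotient.eq_zero_iff_mem.2 (Ideal.subset_span rfl)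
  have h1 : f.comp (smk ι W g) = lev (f.comp (sbase ι W g))
      (fun i => Units.map (f : SRing ι W g →* S) (sz ι W g i)) := by
    refine AddMonoidAlgebra.ringHom_ext (fun r => ?_) fun m => ?_
    · rw [lev_single, mon_zero, Units.val_one, mul_one]
      rfl
    · rw [lev_single, map_one, one_mul]
      have h2 : mon (fun i => Units.map (f : SRing ι W g →* S) (sz ι W g i)) m =
          Units.map ((f.comp (smk ι W g) : LP A (s + 1) →+* S) : LP A (s + 1) →* S)
            (mon (fun i => zlau i) m) := by
        unfold mon
        rw [map_prod]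
        refine Finset.prod_congr rfl fun i _ => ?_
        rw [map_zpow]
        rfl
      rw [h2]
      show f (smk ι W g _) = f (smk ι W g _)
      congr 2
      have h3 : ∀ t : Finset (Fin (s + 1)), (((∏ i ∈ t, (zlau i) ^ m i : (LP A (s + 1))ˣ)) :
          LP A (s + 1)) = AddMonoidAlgebra.single (∑ i ∈ t, Pi.single i (m i)) 1 := by
        intro t
        induction t using Finset.induction_on with
        | empty => simp [AddMonoidAlgebra.one_def]
        | insert j t hj ih =>
          rw [Finset.prod_insert hj, Finset.sum_insert hj, Units.val_mul, ih]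
          have h4 : (((zlau j) ^ m j : (LP A (s + 1))ˣ) : LP A (s + 1)) =
              AddMonoidAlgebra.single (Pi.single j (m j)) 1 := by
            have h5 : ∀ k : ℕ, (((zlau j) ^ k : (LP A (s + 1))ˣ) : LP A (s + 1)) =
                AddMonoidAlgebra.single (Pi.single j (k : ℤ)) 1 := by
              intro k
              induction k with
              | zero => simp [AddMonoidAlgebra.one_def]
              | succ k ih =>
                rw [pow_succ, Units.val_mul, ih]
                show AddMonoidAlgebra.single _ _ * AddMonoidAlgebra.single _ _ = _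
                rw [AddMonoidAlgebra.single_mul_single, ← Pi.single_add, one_mul]
                push_cast
                rfl
            rcases Int.eq_nat_or_neg (m j) with ⟨k, hk | hk⟩
            · rw [hk, zpow_natCast, h5]
            · rw [hk, zpow_neg, zpow_natCast]
              refine Units.inv_eq_of_mul_eq_one_right ?_
              rw [h5, AddMonoidAlgebra.single_mul_single, ← Pi.single_add, add_neg_cancel,
                one_mul, Pi.single_zero, AddMonoidAlgebra.one_def]
          rw [h4, AddMonoidAlgebra.single_mul_single, one_mul]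
      have h6 := h3 Finset.univ
      unfold mon
      rw [h6]
      congr 1
      funext l
      rw [Finset.sum_apply, Finset.sum_eq_single l]
      · rw [Pi.single_eq_same]
      · intro i _ hi
        rw [Pi.single_eq_of_ne hi.symm]
      · intro h
        exact absurd (Finset.mem_univ _) h
  have h7 := RingHom.congr_fun h1 (seqn ι W g)
  rw [RingHom.comp_apply, h0, map_zero] at h7
  unfold seqn at h7
  rw [map_sub, lev_mapRingHom, lev_singleZero] at h7
  exact (sub_eq_zero.1 h7.symm)

end ev

end Pool.Agent.L7h9.SU
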