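import Pool.Agent.L7h9.SU.Ring
set_option autoImplicit false

/-!
The suspensions of tempered classes are unramified.
-/

namespace Pool.Agent.L7h9.SU

open scoped WithZero

open Pool.Agent.TH826.MK

open Pool.Agent.N65.TL

/-- The class `β ∈ K_n(A) ⊗ ℚ` is tempered with respect to the unit `f` of the ring `A`: for all
discrete valuations `v` of fields `L` with a homomorphism `φ : A → L` the image of `β` in
`K_n(L) ⊗ ℚ` is unramified at `v` if `φ f` is a unit at `v`, and specializes to zero at `v` (it is a
combination of symbols with a one-unit among the entries) if `φ f` has a pole at `v`. There is no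
condition at the zeros of `f`. -/
def Tempered.{u, v} {A : Type u} [CommRing A] {n : ℕ} (f : Aˣ) (β : KQ A n) : Prop :=
  ∀ (L : Type v) [Field L] (φ : A →+* L) (v : Valuation L ℤᵐ⁰), Function.Surjective v →
    (v (φ f) = 1 → KQ.map n φ β ∈ unitPart v n) ∧
    (1 < v (φ f) → KQ.map n φ β ∈ oneUnits v n)

variable {K : Type*} [Field K] {s n : ℕ} {W : LP K (s + 1)}

theorem susp_mem_unitPart.{u, v} {A : Type u} [CommRing A] (hWint : Interior W) (hWt : Tame W)
    (ι : K →+* A) (f : Aˣ) {lam : K} (hlam : IsIntegral ℤ lam) {β : KQ A n}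
    (hβ : Tempered.{u, v} f β) {L : Type v} [Field L] (F : SRing ι W (ι lam * f) →+* L)
    (v : Valuation L ℤᵐ⁰) (hv : Function.Surjective v) :
    KQ.map (n + (s + 1)) F (cat (sbase ι W (ι lam * f)) (sz ι W (ι lam * f)) β) ∈
      unitPart v (n + (s + 1)) := by
  classical
  rw [map_cat, ← cat_map]
  set φ : A →+* L := F.comp (sbase ι W (ι lam * f)) with hφ
  set z : Fin (s + 1) → Lˣ := fun i =>
    Units.map (F : SRing ι W (ι lam * f) →* L) (sz ι W (ι lam * f) i) with hz
  have heqn : lev (φ.comp ι) z W = φ (ι lam * f) := eqn_of_hom F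
  obtain ⟨h0, h1⟩ := hβ L φ v hv
  have hlv : v (φ (ι lam)) ≤ 1 :=
    val_le_one_of_integral v (map_isIntegral_int (φ.comp ι) hlam)
  by_cases hsmall : ∃ m0, W.coeff m0 ≠ 0 ∧ v (φ (ι lam * f)) < v ((mon z m0 : Lˣ) : L)
  · obtain ⟨m0, hm0, hlt⟩ := hsmall
    refine cat_mem_of_block v (fun a ha => ?_) _
    have hza : (fun i => a (Fin.natAdd n i)) = z := funext ha
    refine mem_unitPart_of_tame (φ.comp ι) v a (p := fun i => Fin.natAdd n i)
      (fun i j h => Fin.natAdd_injective _ _ h) hWt hm0 ?_
    rw [hza, heqn]
    exact hlt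
  · push Not at hsmall
    rcases lt_or_ge 1 (v (φ f)) with hf | hf
    · exact cat_mem_of_one v z (h1 hf)
    · have hP1 : v (φ (ι lam * f)) ≤ 1 := by
        rw [map_mul, map_mul]
        exact mul_le_one' hlv hf
      choose o ho using fun j => exists_ord v (z j)
      have hvm : ∀ m : Fin (s + 1) → ℤ, v ((mon z m : Lˣ) : L) =
          WithZero.exp (∑ j, o j * m j) := by
        intro m
        unfold mon
        rw [Units.coe_prod, map_prod]
        have h2 : ∀ t : Finset (Fin (s + 1)), ∏ j ∈ t, v ((z j ^ m j : Lˣ) : L) =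
            WithZero.exp (∑ j ∈ t, o j * m j) := by
          intro t
          induction t using Finset.induction_on with
          | empty => simp
          | insert j t hj ih =>
            rw [Finset.prod_insert hj, Finset.sum_insert hj, WithZero.exp_add, ih,
              Units.val_zpow_eq_zpow_val, map_zpow₀, ho, ← WithZero.exp_zsmul, smul_eq_mul,
              mul_comm (m j)]
        exact h2 Finset.univ
      have ho0 : o = 0 := by
        by_contra hne
        obtain ⟨m0, hm0, hpos⟩ := hWint o hne
        have h3 := (hsmall m0 hm0).trans hP1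
        rw [hvm, ← WithZero.exp_zero, WithZero.exp_le_exp] at h3
        omega
      have hz1 : ∀ i, v (z i : L) = 1 := by
        intro i
        rw [ho i, ho0, Pi.zero_apply, WithZero.exp_zero]
      obtain ⟨m0, hm0, -⟩ := hWint (fun _ => 1) (fun h => by
        have := congrFun h 0
        simp at this)
      have hP2 : v (φ (ι lam * f)) = 1 := by
        refine le_antisymm hP1 ?_
        have h3 := hsmall m0 hm0
        rw [hvm, ho0] at h3
        simpa using h3
      have hf1 : v (φ f) = 1 := by
        refine le_antisymm hf ?_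
        rw [← hP2, map_mul, map_mul]
        calc v (φ (ι lam)) * v (φ f) ≤ 1 * v (φ f) := mul_le_mul' hlv le_rfl
          _ = v (φ f) := one_mul _
      exact cat_mem_of_unit v hz1 (h0 hf1)

theorem susp_mem_unramified.{u, v} {A : Type u} [CommRing A] (hWint : Interior W) (hWt : Tame W)
    (ι : K →+* A) (f : Aˣ) {lam : K} (hlam : IsIntegral ℤ lam) {β : KQ A n}
    (hβ : Tempered.{u, v} f β) {L : Type v} [Field L] (F : SRing ι W (ι lam * f) →+* L) :
    KQ.map (n + (s + 1)) F (cat (sbase ι W (ι lam * f)) (sz ι W (ι lam * f)) β) ∈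
      Unramified L (n + (s + 1)) := by
  unfold Unramified
  simp only [Submodule.mem_iInf]
  intro v hv
  exact susp_mem_unitPart hWint hWt ι f hlam hβ F v hv

end Pool.Agent.L7h9.SU
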