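import Pool.Agent.L7h9.SU.Asy2
import Pool.Agent.L7h9.SU.Unr
import Pool.Agent.L7h9.LT.Smo
set_option autoImplicit false

/-!
Tori in the suspension `W(z) = λ f` over a torus of the base, and the regulators on them.
-/

namespace Pool.Agent.L7h9.SU

open Filter Topology

open Pool.Agent.TH826.MK

open Pool.Agent.N65.TL

open Pool.Agent.L7h9.LT (lval lder)

section two

variable {K A : Type*} [Field K] [CharZero K] [CommRing A]

/-- The unit `2` of a `K`-algebra. -/
noncomputable def two (ι : K →+* A) : Aˣ := Units.map (ι : K →* A) (Units.mk0 2 two_ne_zero)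

/-- The product `β · {2}` of a class with the symbol of the constant `2`. The regulator of this
class on a torus `γ` is `± log 2` times the integral of the differential form `dlog β` over `γ`. -/
noncomputable def byTwo (ι : K →+* A) {n : ℕ} : KQ A n →ₗ[ℚ] KQ A (n + 1) :=
  cat (RingHom.id A) fun _ : Fin 1 => two ι

end two

section torus

variable {K A : Type*} [Field K] [CommRing A] {s n k : ℕ} {ι : K →+* A} {W : LP K (s + 1)} {g : A}

theorem sev_congr {S : Type*} [CommRing S] {φ φ' : A →+* S} {z z' : Fin (s + 1) → Sˣ}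
    (h : lev (φ.comp ι) z W = φ g) (h' : lev (φ'.comp ι) z' W = φ' g) (e : φ = φ')
    (e' : z = z') : sev φ z h = sev φ' z' h' := by
  subst e e'
  rfl

/-- the units of values -/
noncomputable def uval {d : ℕ} {Z : Fin (s + 1) → (Fin d → ℝ) → ℂ} (hZ : ∀ i, Good (Z i))
    (θ : Fin d → ℝ) (i : Fin (s + 1)) : ℂˣ := Units.mk0 (Z i θ) ((hZ i).ne_zero θ)

theorem mon_uval {d : ℕ} {Z : Fin (s + 1) → (Fin d → ℝ) → ℂ} (hZ : ∀ i, Good (Z i))
    (θ : Fin d → ℝ) (m : Fin (s + 1) → ℤ) :
    ((mon (uval hZ θ) m : ℂˣ) : ℂ) = ∏ i, Z i θ ^ m i := by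
  unfold mon
  rw [Units.coe_prod]
  exact Finset.prod_congr rfl fun i _ => Units.val_zpow_eq_zpow_val _ _

theorem lev_uval {d : ℕ} {Z : Fin (s + 1) → (Fin d → ℝ) → ℂ} (hZ : ∀ i, Good (Z i))
    (θ : Fin d → ℝ) (σ : K →+* ℂ) :
    lev σ (uval hZ θ) W = lval σ W fun i => Z i θ := by
  rw [lev_eq]
  unfold lval
  exact Finset.sum_congr rfl fun m _ => by rw [mon_uval]

/-- the torus over the `k`-fold covering of a torus of the base -/
noncomputable def mkT (γ : Torus A n) (k : ℕ) {Z : Fin (s + 1) → (Fin (n + s) → ℝ) → ℂ}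
    (hZ : ∀ i, Good (Z i)) (hZp : ∀ i, Per (Z i))
    (heq : ∀ θ, lev ((γ.e (pul n s k θ)).comp ι) (uval hZ θ) W = γ.e (pul n s k θ) g) :
    Torus (SRing ι W g) (n + s) where
  e θ := sev (γ.e (pul n s k θ)) (uval hZ θ) (heq θ)
  smooth h := by
    obtain ⟨p, rfl⟩ := smk_surjective ι W g h
    have e1 : (fun θ => sev (γ.e (pul n s k θ)) (uval hZ θ) (heq θ) (smk ι W g p)) =
        fun θ => ∑ m ∈ p.coeff.support, γ.e (pul n s k θ) (p.coeff m) * ∏ i, Z i θ ^ m i := by
      funext θ
      rw [sev_smk, lev_eq]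
      exact Finset.sum_congr rfl fun m _ => by rw [mon_uval]
    rw [e1]
    refine ContDiff.sum fun m _ => ContDiff.mul ?_ ?_
    · exact (γ.smooth (p.coeff m)).comp (pul n s k).contDiff
    · exact contDiff_prod fun i _ => contDiff_zpow' (hZ i) _
  periodic θ i := by
    refine sev_congr _ _ (pul_per γ.periodic θ i) ?_
    funext j
    exact Units.ext (hZp j θ i)

variable (γ : Torus A n) {Z : Fin (s + 1) → (Fin (n + s) → ℝ) → ℂ}
  (hZ : ∀ i, Good (Z i)) (hZp : ∀ i, Per (Z i))
  (heq : ∀ θ, lev ((γ.e (pul n s k θ)).comp ι) (uval hZ θ) W = γ.e (pul n s k θ) g)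

theorem mkT_sbase (a : A) (θ : Fin (n + s) → ℝ) :
    (mkT γ k hZ hZp heq).e θ (sbase ι W g a) = γ.e (pul n s k θ) a :=
  sev_sbase _ _ (heq θ) _

theorem mkT_sz (i : Fin (s + 1)) (θ : Fin (n + s) → ℝ) :
    (mkT γ k hZ hZp heq).e θ (sz ι W g i : SRing ι W g) = Z i θ :=
  sev_sz _ _ (heq θ) _

theorem mkT_reg (u : Fin n → Aˣ) :
    (mkT γ k hZ hZp heq).reg (cat (sbase ι W g) (sz ι W g) (symb u)) =
      pairing (d := n + s) (Fin.append (m := n) (n := s + 1)
        (fun (i : Fin n) θ => γ.fn (u i : A) (pul n s k θ)) Z) := by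
  rw [cat_symb]
  have h := (mkT γ k hZ hZp heq).reg_symb (Fin.append (m := n) (n := s + 1)
    (fun i => Units.map (sbase ι W g : A →* SRing ι W g) (u i)) (sz ι W g))
  refine h.trans ?_
  unfold Torus.pair
  congr 1
  funext l
  obtain ⟨x, rfl⟩ := (rE n s).surjective l
  rcases x with i | a
  · have e1 : Fin.append (m := n) (n := s + 1)
      (fun i => Units.map (sbase ι W g : A →* SRing ι W g) (u i)) (sz ι W g)
        (rE n s (Sum.inl i)) = Units.map (sbase ι W g : A →* SRing ι W g) (u i) :=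
      Fin.append_left _ _ i
    have e2 : Fin.append (m := n) (n := s + 1)
        (fun (i : Fin n) θ => γ.fn (u i : A) (pul n s k θ)) Z (rE n s (Sum.inl i)) =
        fun θ => γ.fn (u i : A) (pul n s k θ) := Fin.append_left _ _ i
    rw [e1, e2]
    funext θ
    exact mkT_sbase γ hZ hZp heq _ θ
  · have e1 : Fin.append (m := n) (n := s + 1)
      (fun i => Units.map (sbase ι W g : A →* SRing ι W g) (u i)) (sz ι W g)
        (rE n s (Sum.inr a)) = sz ι W g a := Fin.append_right _ _ a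
    have e2 : Fin.append (m := n) (n := s + 1)
        (fun (i : Fin n) θ => γ.fn (u i : A) (pul n s k θ)) Z (rE n s (Sum.inr a)) = Z a :=
      Fin.append_right _ _ a
    rw [e1, e2]
    funext θ
    exact mkT_sz γ hZ hZp heq _ θ

end torus

section base

variable {K A : Type*} [Field K] [CharZero K] [CommRing A] {n : ℕ}

theorem reg_byTwo {ι : K →+* A} {γ : Torus A n} {σ : K →+* ℂ} (hγ : ∀ θ x, γ.e θ (ι x) = σ x)
    (u : Fin n → Aˣ) : γ.reg (byTwo ι (symb u)) =
      pairing (d := n) (Fin.append (fun i => γ.fn (u i : A)) fun (_ : Fin 1) _ => (2 : ℂ)) := by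
  unfold byTwo
  rw [cat_symb]
  have h := γ.reg_symb (Fin.append (fun i => Units.map ((RingHom.id A : A →+* A) : A →* A) (u i))
    fun _ : Fin 1 => two ι)
  refine h.trans ?_
  unfold Torus.pair
  congr 1
  funext l
  obtain ⟨x, rfl⟩ := (rE n 0).surjective l
  rcases x with i | a
  · have e1 : Fin.append (fun i => Units.map ((RingHom.id A : A →+* A) : A →* A) (u i))
        (fun _ : Fin 1 => two ι) (rE n 0 (Sum.inl i)) =
        Units.map ((RingHom.id A : A →+* A) : A →* A) (u i) := Fin.append_left _ _ i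
    have e2 : Fin.append (fun i => γ.fn (u i : A)) (fun (_ : Fin 1) _ => (2 : ℂ))
        (rE n 0 (Sum.inl i)) = γ.fn (u i : A) := Fin.append_left _ _ i
    rw [e1, e2]
    rfl
  · have e1 : Fin.append (fun i => Units.map ((RingHom.id A : A →+* A) : A →* A) (u i))
        (fun _ : Fin 1 => two ι) (rE n 0 (Sum.inr a)) = two ι := Fin.append_right _ _ a
    have e2 : Fin.append (fun i => γ.fn (u i : A)) (fun (_ : Fin 1) _ => (2 : ℂ))
        (rE n 0 (Sum.inr a)) = fun _ => (2 : ℂ) := Fin.append_right _ _ a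
    rw [e1, e2]
    funext θ
    have h2 : (two ι : A) = ι 2 := rfl
    show γ.e θ (two ι : A) = 2
    rw [h2, hγ, map_ofNat]

end base

end Pool.Agent.L7h9.SU
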