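import Pool.Agent.L7h9.SU.Tor
set_option autoImplicit false

/-!
The regulators of the suspensions of classes on the tori over a torus of the base, for large `λ`.
-/

namespace Pool.Agent.L7h9.SU

open Filter Topology

open Pool.Agent.TH826.MK

open Pool.Agent.N65.TL

open Pool.Agent.L7h9.LT (lval lder)

variable {K A : Type*} [Field K] [CharZero K] [CommRing A] {s n : ℕ} {W : LP K (s + 1)}

theorem exists_torusS (σ : K →+* ℂ) (ι : K →+* A) (f : Aˣ) (γ : Torus A n)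
    (hγ : ∀ θ x, γ.e θ (ι x) = σ x) {al v : Fin (s + 1) → ℤ} (hv : W.coeff v ≠ 0)
    (hpos : 0 < dot al v) (hmax : ∀ m, W.coeff m ≠ 0 → m ≠ v → dot al m < dot al v)
    (i0 : Fin (s + 1)) {κ : Type*} [Fintype κ] (u : κ → Fin n → Aˣ) {ε : ℝ} (hε : 0 < ε) :
    ∃ Λ0 : ℝ, 1 < Λ0 ∧ ∀ lam : K, Λ0 ≤ ‖σ lam‖ →
      ∃ Γ : Torus (SRing ι W (ι lam * f)) (n + s),
        (∀ θ x, Γ.e θ (sbase ι W (ι lam * f) (ι x)) = σ x) ∧
        (∀ θ, ∃ i, lder σ W (fun j => Γ.e θ (sz ι W (ι lam * f) j : SRing ι W (ι lam * f))) i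
          ≠ 0) ∧
        ∀ a, |Γ.reg (cat (sbase ι W (ι lam * f)) (sz ι W (ι lam * f)) (symb (u a))) /
            Real.log ‖σ lam‖ -
          cst n s (dot al v).toNat * (zmat al v i0).det * γ.reg (byTwo ι (symb (u a)))| ≤ ε := by
  classical
  have hpi := Real.pi_pos
  set k : ℕ := (dot al v).toNat with hk
  have hkz : (k : ℤ) = dot al v := Int.toNat_of_nonneg hpos.le
  have hk0 : 0 < k := by omega
  have hkR : (0 : ℝ) < k := by exact_mod_cast hk0
  have hkzR : ((dot al v : ℤ) : ℝ) = k := by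
    rw [← hkz]
    simp
  have hσv : σ (W.coeff v) ≠ 0 := (map_ne_zero σ).2 hv
  -- the root on the base
  have hF : Good (γ.fn (f : A)) := γ.good f
  have hFp : Per (γ.fn (f : A)) := γ.per _
  obtain ⟨h, hh, hhp, hhk⟩ := exists_kroot hF hFp hk0
  obtain ⟨Ch, hCh0, hChl, hChw⟩ := Good.bdd hh hhp
  obtain ⟨CF, hCF0, hCFl, -⟩ := Good.bdd hF hFp
  set Ab : ℝ := 1 + ∑ i, |(al i : ℝ)| with hA
  have hA1 : 1 ≤ Ab := by
    have : 0 ≤ ∑ i, |(al i : ℝ)| := Finset.sum_nonneg fun i _ => abs_nonneg _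
    linarith
  have hAi : ∀ i, |(al i : ℝ)| ≤ Ab := by
    intro i
    have h1 := Finset.single_le_sum (f := fun i => |(al i : ℝ)|) (fun i _ => abs_nonneg _)
      (Finset.mem_univ i)
    have h2 : |(al i : ℝ)| ≤ ∑ i, |(al i : ℝ)| := h1
    linarith
  choose δ T0 hδ hT0 hasy using fun a => asy (s := s) hk0 (u := fun i => γ.fn (u a i : A))
    (fun i => γ.good _) (fun i => γ.per _) al v i0 (B := Ab * Ch + 1) (by positivity) hε
  obtain ⟨δ0, hδ0, hδ01, hδ0le⟩ : ∃ δ0 : ℝ, 0 < δ0 ∧ δ0 ≤ 1 ∧ ∀ a, δ0 ≤ δ a := by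
    have hsum : ∀ a, (δ a)⁻¹ ≤ ∑ a, (δ a)⁻¹ := fun a =>
      Finset.single_le_sum (f := fun a => (δ a)⁻¹) (fun a _ => (inv_pos.2 (hδ a)).le)
        (Finset.mem_univ a)
    have hs0 : 0 ≤ ∑ a, (δ a)⁻¹ := Finset.sum_nonneg fun a _ => (inv_pos.2 (hδ a)).le
    refine ⟨(1 + ∑ a, (δ a)⁻¹)⁻¹, inv_pos.2 (by linarith), inv_le_one_of_one_le₀ (by linarith),
      fun a => ?_⟩
    rw [inv_le_comm₀ (by linarith) (hδ a)]
    have := hsum a
    linarith
  set T1 : ℝ := ∑ a, T0 a with hT1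
  have hT10 : 0 ≤ T1 := Finset.sum_nonneg fun a _ => (hT0 a).le
  have hT1le : ∀ a, T0 a ≤ T1 := fun a =>
    Finset.single_le_sum (f := T0) (fun a _ => (hT0 a).le) (Finset.mem_univ a)
  obtain ⟨R, hR1, hz⟩ := exists_z σ hv hpos hmax i0 hCh0 hδ0
  obtain ⟨Bc, hBc, hcrit⟩ := Pool.Agent.L7h9.LT.exists_bound σ W
  set C2 : ℝ := |Real.log ‖σ (W.coeff v)‖| + Ch with hC2
  have hC20 : 0 ≤ C2 := by positivity
  have hlogR : 0 ≤ Real.log R := Real.log_nonneg hR1
  set M : ℝ := T1 + k * (Real.log R + C2) + (δ0 + Ab * C2) / δ0 + (|Real.log Bc| + CF) + 1 with hM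
  have hM2 : 0 ≤ k * (Real.log R + C2) := by positivity
  have hM3 : 0 ≤ (δ0 + Ab * C2) / δ0 := by positivity
  have hM4 : 0 ≤ |Real.log Bc| + CF := by positivity
  refine ⟨Real.exp M + 1, by linarith [Real.exp_pos M], fun lam hlam => ?_⟩
  have hln : 0 < ‖σ lam‖ := by linarith [Real.exp_pos M]
  have hl0 : σ lam ≠ 0 := norm_pos_iff.1 hln
  set t : ℝ := Real.log ‖σ lam‖ with ht
  have htM : M ≤ t := by
    rw [ht, Real.le_log_iff_exp_le hln]
    linarith
  have htpos : 0 < t := by linarith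
  -- the root
  obtain ⟨κ0, hκ⟩ := IsAlgClosed.exists_pow_nat_eq (σ lam / σ (W.coeff v)) hk0
  have hκ0 : κ0 ≠ 0 := by
    rintro rfl
    rw [zero_pow hk0.ne'] at hκ
    exact (div_ne_zero hl0 hσv) hκ.symm
  have hlogκ : Real.log ‖κ0‖ = (t - Real.log ‖σ (W.coeff v)‖) / k := by
    have h1 : (k : ℝ) * Real.log ‖κ0‖ = t - Real.log ‖σ (W.coeff v)‖ := by
      rw [← Real.log_pow, ← norm_pow, hκ, norm_div, Real.log_div hln.ne'
        (norm_ne_zero_iff.2 hσv)]
    rw [← h1]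
    field_simp
  set Λ : (Fin (n + s) → ℝ) → ℂ := fun θ => κ0 * h (pul n s 1 θ) with hΛ
  have hpg : Good fun θ => h (pul n s 1 θ) := good_pul hh
  have hΛg : Good Λ := (good_const hκ0).mul hpg
  have hΛp : Per Λ := by
    intro θ j
    simp only [hΛ]
    rw [pul_per (F := h) hhp]
  have hΛlog : ∀ θ, |Real.log ‖Λ θ‖ - t / k| ≤ C2 := by
    intro θ
    have h1 : Real.log ‖Λ θ‖ = Real.log ‖κ0‖ + Real.log ‖h (pul n s 1 θ)‖ := by
      simp only [hΛ]
      rw [norm_mul, Real.log_mul (norm_ne_zero_iff.2 hκ0) (norm_ne_zero_iff.2 (hh.ne_zero _))]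
    rw [h1, hlogκ]
    have h2 : (t - Real.log ‖σ (W.coeff v)‖) / k + Real.log ‖h (pul n s 1 θ)‖ - t / k =
        -(Real.log ‖σ (W.coeff v)‖ / k) + Real.log ‖h (pul n s 1 θ)‖ := by ring
    rw [h2]
    refine (abs_add_le _ _).trans (add_le_add ?_ (hChl _))
    rw [abs_neg, abs_div, abs_of_pos hkR]
    have h3 : (1 : ℝ) ≤ k := by exact_mod_cast hk0
    exact div_le_self (abs_nonneg _) h3
  have hΛR : ∀ θ, R ≤ ‖Λ θ‖ := by
    intro θ
    have h1 := (abs_le.1 (hΛlog θ)).1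
    have h2 : Real.log R ≤ Real.log ‖Λ θ‖ := by
      have h3 : Real.log R + C2 ≤ t / k := by
        rw [le_div_iff₀ hkR]
        linarith
      linarith
    exact (Real.log_le_log_iff (by linarith) (norm_pos_iff.2 (hΛg.ne_zero θ))).1 h2
  have hlwΛ : ∀ j θ, lw Λ j θ = lw (fun θ => h (pul n s 1 θ)) j θ := by
    intro j θ
    have h1 := lw_mul (good_const (d := n + s) hκ0) hpg j θ
    rw [lw_const, zero_add] at h1
    exact h1
  have hΛnat : ∀ l θ, lw Λ (Fin.natAdd n l) θ = 0 := fun l θ => by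
    rw [hlwΛ, lw_pul_nat hh]
  have hΛB : ∀ j θ, ‖lw Λ j θ‖ ≤ Ch := by
    intro j θ
    refine Fin.addCases (fun i => ?_) (fun l => ?_) j
    · rw [hlwΛ, lw_pul_cast hh, Nat.cast_one, one_mul]
      exact hChw _ _
    · rw [hΛnat, norm_zero]
      exact hCh0
  have hpulk : ∀ θ : Fin (n + s) → ℝ, (k : ℝ) • pul n s 1 θ = pul n s k θ := by
    intro θ
    funext i
    rw [Pi.smul_apply, pul_apply, pul_apply, smul_eq_mul, Nat.cast_one, one_mul]
  have hfe : ∀ θ, γ.e (pul n s k θ) (ι lam * (f : A)) = σ lam * γ.fn (f : A) (pul n s k θ) := by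
    intro θ
    rw [map_mul, hγ]
    rfl
  have hΛk : ∀ θ, σ (W.coeff v) * Λ θ ^ k = γ.e (pul n s k θ) (ι lam * (f : A)) := by
    intro θ
    rw [hfe]
    simp only [hΛ]
    rw [mul_pow, hκ, hhk, hpulk]
    field_simp
  obtain ⟨Z, hZg, hZp, hZlog, hZlw, hZeq⟩ := hz (n + s) (Fin.natAdd n) Λ hΛg hΛp hΛR hΛB
  have hcomp : ∀ θ, (γ.e θ).comp ι = σ := fun θ => RingHom.ext fun x => hγ θ x
  have hlv : ∀ θ, lval σ W (fun i => Z i θ) = γ.e (pul n s k θ) (ι lam * (f : A)) := fun θ =>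
    (hZeq θ).trans (hΛk θ)
  have heq : ∀ θ, lev ((γ.e (pul n s k θ)).comp ι) (uval hZg θ) W =
      γ.e (pul n s k θ) (ι lam * (f : A)) := by
    intro θ
    rw [hcomp, lev_uval, hlv]
  refine ⟨mkT γ k hZg hZp heq, fun θ x => by rw [mkT_sbase, hγ], fun θ => ?_, fun a => ?_⟩
  · have e1 : (fun j => (mkT γ k hZg hZp heq).e θ
        (sz ι W (ι lam * (f : A)) j : SRing ι W (ι lam * (f : A)))) = fun j => Z j θ :=
      funext fun j => mkT_sz γ hZg hZp heq j θ
    rw [e1]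
    refine hcrit _ (fun i => (hZg i).ne_zero θ) ?_
    rw [hlv, hfe, norm_mul]
    have h1 : γ.fn (f : A) (pul n s k θ) ≠ 0 := hF.ne_zero _
    have h2 := (abs_le.1 (hCFl (pul n s k θ))).1
    have h3 : Real.log Bc ≤ Real.log (‖σ lam‖ * ‖γ.fn (f : A) (pul n s k θ)‖) := by
      rw [Real.log_mul hln.ne' (norm_ne_zero_iff.2 h1)]
      have h4 := le_abs_self (Real.log Bc)
      linarith
    exact (Real.log_le_log_iff hBc (mul_pos hln (norm_pos_iff.2 h1))).1 h3
  · rw [mkT_reg, reg_byTwo hγ]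
    refine hasy a Z t ((hT1le a).trans (by linarith)) hZg (fun i θ => ?_) (fun i l θ => ?_)
      (fun i j θ => ?_)
    · refine le_trans ?_ (hδ0le a)
      rw [hkzR]
      have h1 := hZlog i θ
      have h2 := hΛlog θ
      have h3 : Real.log ‖Z i θ‖ / t - al i / k =
          ((Real.log ‖Z i θ‖ - al i * Real.log ‖Λ θ‖) +
            al i * (Real.log ‖Λ θ‖ - t / k)) / t := by
        field_simp
        ring
      rw [h3, abs_div, abs_of_pos htpos, div_le_iff₀ htpos]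
      refine (abs_add_le _ _).trans ?_
      rw [abs_mul]
      have h4 : |(al i : ℝ)| * |Real.log ‖Λ θ‖ - t / k| ≤ Ab * C2 :=
        mul_le_mul (hAi i) h2 (abs_nonneg _) (by linarith)
      have h5 : (δ0 + Ab * C2) / δ0 ≤ t := by linarith
      rw [div_le_iff₀ hδ0] at h5
      linarith
    · refine le_trans ?_ (hδ0le a)
      have h1 := hZlw i (Fin.natAdd n l) θ
      rw [hΛnat, mul_zero, zero_add] at h1
      have h2 : ∑ l', (if (Fin.natAdd n l : Fin (n + s)) = Fin.natAdd n l' then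
          (bdir v i0 l' i : ℂ) else 0) = (bdir v i0 l i : ℂ) := by
        rw [Finset.sum_eq_single l]
        · rw [if_pos rfl]
        · intro l' _ hl'
          rw [if_neg fun h => hl' (Fin.natAdd_injective _ _ h).symm]
        · intro h
          exact absurd (Finset.mem_univ _) h
      rw [h2] at h1
      simpa using h1
    · have h1 := hZlw i (Fin.castAdd s j) θ
      have h2 : ∑ l', (if (Fin.castAdd s j : Fin (n + s)) = Fin.natAdd n l' then
          (bdir v i0 l' i : ℂ) else 0) = 0 :=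
        Finset.sum_eq_zero fun l' _ => if_neg (cast_ne_nat j l')
      rw [h2, mul_zero, add_zero] at h1
      have h3 : ‖lw (Z i) (Fin.castAdd s j) θ‖ ≤
          ‖lw (Z i) (Fin.castAdd s j) θ - al i * lw Λ (Fin.castAdd s j) θ‖ +
            ‖(al i : ℂ) * lw Λ (Fin.castAdd s j) θ‖ := by
        have e : lw (Z i) (Fin.castAdd s j) θ =
            (lw (Z i) (Fin.castAdd s j) θ - al i * lw Λ (Fin.castAdd s j) θ) +
              al i * lw Λ (Fin.castAdd s j) θ := by ring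
        conv_lhs => rw [e]
        exact norm_add_le _ _
      rw [norm_mul, Complex.norm_intCast] at h3
      have h4 : |(al i : ℝ)| * ‖lw Λ (Fin.castAdd s j) θ‖ ≤ Ab * Ch :=
        mul_le_mul (hAi i) (hΛB _ _) (norm_nonneg _) (by linarith)
      linarith

end Pool.Agent.L7h9.SU
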